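import Mathlib
import Pool.Prelude.Def_F_c55c3909

/-!
# Irregular Diophantine quadruples: size and splitting of the largest element

Lemmas for the two results on quadruples `a < b < c < d` whose largest element has few prime
factors, or a large divisor with few square roots of unity. Throughout `r² = ab+1`, `s² = ac+1`,
`t² = bc+1`, `x² = ad+1`, `y² = bd+1`, `z² = cd+1`.

* `gap`: an irregular quadruple has `d > 16 c³`.
* `five_roots`, `pigeon`: `1, x, y, z, td - yz` are small and distinct.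
* `cell_odd`, `cell_even`: the splittings of `d` given by two of `x, y, z` have four nontrivial
  common cells.
* `few_primes`: `d / 4`, or the odd part of `d`, has at least five prime factors.
-/

set_option autoImplicit false

open N3d365e8b

namespace Pool.Agent.Lib.MP_3c30ec_nt

/-- the polynomial form of regularity -/
theorem regular_of_poly {a b c d r s t : ℤ} (ha : 0 < a) (hab : a < b) (hbc : b < c)
    (hcd : c < d) (hr : r ^ 2 = a * b + 1) (hs : s ^ 2 = a * c + 1) (ht : t ^ 2 = b * c + 1)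
    (hr0 : 0 < r) (hs0 : 0 < s) (ht0 : 0 < t)
    (h4 : (d - (a + b + c + 2 * a * b * c)) ^ 2 = 4 * ((a * b + 1) * (a * c + 1) * (b * c + 1))) :
    d = a + b + c + 2 * a * b * c + 2 * (r * s * t) := by
  have h3 : (2 * (r * s * t)) ^ 2 = 4 * ((a * b + 1) * (a * c + 1) * (b * c + 1)) := by
    rw [← hr, ← hs, ← ht]; ring
  rw [← h3] at h4
  have hrst : 0 < r * s * t := by positivity
  rcases sq_eq_sq_iff_eq_or_eq_neg.1 h4 with h5 | h5
  · linarith
  · exfalso
    have h6 : 2 * (r * s * t) < a + b + 2 * a * b * c := by linarith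
    have h7 : (2 * (r * s * t)) ^ 2 < (a + b + 2 * a * b * c) ^ 2 :=
      pow_lt_pow_left₀ h6 (by positivity) (by norm_num)
    rw [h3] at h7
    have hb : 0 < b := by linarith
    have hc : 0 < c := by linarith
    have h8 : (a + b) ^ 2 < 4 * (a * b * c ^ 2) := by
      have h9 : a + b < 2 * c := by linarith
      have h10 : (a + b) ^ 2 < (2 * c) ^ 2 := pow_lt_pow_left₀ h9 (by positivity) (by norm_num)
      have h11 : 1 * c ^ 2 ≤ (a * b) * c ^ 2 := by
        apply mul_le_mul_of_nonneg_right _ (by positivity)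
        have := mul_pos ha hb
        linarith
      linarith
    nlinarith [mul_pos ha hb, mul_pos ha hc, mul_pos hb hc]

/-- if `a' = a` then the quadruple is regular -/
theorem regular_of_eq {a b c d r s t y z : ℤ} (ha : 0 < a) (hab : a < b) (hbc : b < c)
    (hcd : c < d) (hr : r ^ 2 = a * b + 1) (hs : s ^ 2 = a * c + 1) (ht : t ^ 2 = b * c + 1)
    (hy : y ^ 2 = b * d + 1) (hz : z ^ 2 = c * d + 1) (hr0 : 0 < r) (hs0 : 0 < s) (ht0 : 0 < t)
    (h : a = b + c + d + 2 * b * c * d - 2 * t * y * z) :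
    d = a + b + c + 2 * a * b * c + 2 * (r * s * t) := by
  have h1 : (2 * t * y * z) ^ 2 = (b + c + d + 2 * b * c * d - a) ^ 2 := by
    rw [show 2 * t * y * z = b + c + d + 2 * b * c * d - a by linarith]
  have h2 : (2 * t * y * z) ^ 2 = 4 * ((b * c + 1) * (b * d + 1) * (c * d + 1)) := by
    rw [← ht, ← hy, ← hz]; ring
  apply regular_of_poly ha hab hbc hcd hr hs ht hr0 hs0 ht0
  rw [h2] at h1
  linarith [h1]

/-- if `c' = c` then the quadruple is regular -/
theorem regular_of_eq' {a b c d r s t x y : ℤ} (ha : 0 < a) (hab : a < b) (hbc : b < c)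
    (hcd : c < d) (hr : r ^ 2 = a * b + 1) (hs : s ^ 2 = a * c + 1) (ht : t ^ 2 = b * c + 1)
    (hx : x ^ 2 = a * d + 1) (hy : y ^ 2 = b * d + 1) (hr0 : 0 < r) (hs0 : 0 < s) (ht0 : 0 < t)
    (h : c = a + b + d + 2 * a * b * d - 2 * r * x * y) :
    d = a + b + c + 2 * a * b * c + 2 * (r * s * t) := by
  have h1 : (2 * r * x * y) ^ 2 = (a + b + d + 2 * a * b * d - c) ^ 2 := by
    rw [show 2 * r * x * y = a + b + d + 2 * a * b * d - c by linarith]
  have h2 : (2 * r * x * y) ^ 2 = 4 * ((a * b + 1) * (a * d + 1) * (b * d + 1)) := by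
    rw [← hr, ← hx, ← hy]; ring
  apply regular_of_poly ha hab hbc hcd hr hs ht hr0 hs0 ht0
  rw [h2] at h1
  linarith [h1]

/-- size of the root that belongs to the smaller regular extension -/
theorem root_bound {b c d t y z : ℤ} (hb : 0 < b) (hbc : b < c)
    (hbd : b + c < d) (ht : t ^ 2 = b * c + 1) (hy : y ^ 2 = b * d + 1)
    (hz : z ^ 2 = c * d + 1) (ht0 : 0 < t) (hy0 : 0 < y) (hz0 : 0 < z) :
    0 < t * d - y * z ∧ 4 * (b * c) * (t * d - y * z) ^ 2 < d ^ 2 := by
  have hc : 0 < c := by linarith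
  have hd : 0 < d := by linarith
  have h1 : (t * d - y * z) * (t * d + y * z) = d ^ 2 - (b + c) * d - 1 := by
    have : (t * d - y * z) * (t * d + y * z) = t ^ 2 * d ^ 2 - y ^ 2 * z ^ 2 := by ring
    rw [this, ht, hy, hz]; ring
  have h2 : 0 < d ^ 2 - (b + c) * d - 1 := by
    have : d ^ 2 - (b + c) * d - 1 = d * (d - (b + c)) - 1 := by ring
    rw [this]
    have h3 : d * 1 ≤ d * (d - (b + c)) := mul_le_mul_of_nonneg_left (by linarith) hd.le
    linarith
  have hp : 0 < t * d + y * z := by positivity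
  have h3 : 0 < t * d - y * z := by
    by_contra hn
    push Not at hn
    have := mul_nonpos_of_nonpos_of_nonneg hn hp.le
    linarith
  refine ⟨h3, ?_⟩
  have p1 := mul_pos hb hc
  have p2 := mul_pos hb hd
  have p3 := mul_pos hc hd
  have h4 : b * c * d < t * y * z := by
    have h5 : (b * c * d) ^ 2 < (t * y * z) ^ 2 := by
      have h6 : (t * y * z) ^ 2 = (b * c + 1) * (b * d + 1) * (c * d + 1) := by
        rw [← ht, ← hy, ← hz]; ring
      have h7 : (b * c + 1) * (b * d + 1) * (c * d + 1) = (b * c * d) ^ 2 +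
          (b * c * (b * d) + b * c * (c * d) + b * d * (c * d) + b * c + b * d + c * d + 1) := by
        ring
      have h8 : 0 < b * c * (b * d) + b * c * (c * d) + b * d * (c * d) + b * c + b * d
          + c * d + 1 := by positivity
      rw [h6, h7]
      linarith
    exact lt_of_pow_lt_pow_left₀ 2 (by positivity) h5
  have h7 : 4 * (b * c) * d ^ 2 < (t * d + y * z) ^ 2 := by
    have e1 : (t * d + y * z) ^ 2 = t ^ 2 * d ^ 2 + y ^ 2 * z ^ 2 + 2 * (t * y * z * d) := by ring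
    rw [e1, ht, hy, hz]
    have e2 : b * c * d * d < t * y * z * d := mul_lt_mul_of_pos_right h4 hd
    have e3 : (b * c + 1) * d ^ 2 + (b * d + 1) * (c * d + 1) =
        2 * (b * c * d * d) + (d ^ 2 + b * d + c * d + 1) := by ring
    rw [e3]
    have e4 : 0 < d ^ 2 + b * d + c * d + 1 := by positivity
    have e5 : 4 * (b * c) * d ^ 2 = 4 * (b * c * d * d) := by ring
    linarith
  have h8 : 4 * (b * c) * (t * d - y * z) ^ 2 * d ^ 2 < d ^ 2 * d ^ 2 := by
    have e1 : (t * d - y * z) ^ 2 * (4 * (b * c) * d ^ 2) <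
        (t * d - y * z) ^ 2 * (t * d + y * z) ^ 2 := mul_lt_mul_of_pos_left h7 (by positivity)
    have e2 : (t * d - y * z) ^ 2 * (t * d + y * z) ^ 2 = (d ^ 2 - (b + c) * d - 1) ^ 2 := by
      rw [← h1]; ring
    have e3 : (d ^ 2 - (b + c) * d - 1) ^ 2 < (d ^ 2) ^ 2 := by
      apply pow_lt_pow_left₀ _ h2.le (by norm_num)
      have : 0 < (b + c) * d := by positivity
      linarith
    calc 4 * (b * c) * (t * d - y * z) ^ 2 * d ^ 2 =
        (t * d - y * z) ^ 2 * (4 * (b * c) * d ^ 2) := by ring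
      _ < (t * d - y * z) ^ 2 * (t * d + y * z) ^ 2 := e1
      _ = (d ^ 2 - (b + c) * d - 1) ^ 2 := e2
      _ < (d ^ 2) ^ 2 := e3
      _ = d ^ 2 * d ^ 2 := by ring
  exact lt_of_mul_lt_mul_right h8 (by positivity)

/-- the largest element exceeds the sum of the others -/
theorem add_lt {b c d t y z : ℤ} (hb : 1 < b) (hbc : b < c) (hcd : c < d)
    (ht : t ^ 2 = b * c + 1) (hy : y ^ 2 = b * d + 1)
    (hz : z ^ 2 = c * d + 1) (ht0 : 0 < t) (hy0 : 0 < y) (hz0 : 0 < z) :
    0 ≤ b + c + d + 2 * b * c * d - 2 * t * y * z ∧ b + c < d := by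
  have h0 : (t * y - b * z) ^ 2 = b * (b + c + d + 2 * b * c * d - 2 * t * y * z) + 1 := by
    have : (t * y - b * z) ^ 2 = t ^ 2 * y ^ 2 + b ^ 2 * z ^ 2 - 2 * b * t * y * z := by ring
    rw [this, ht, hy, hz]; ring
  have h1 : 0 ≤ b + c + d + 2 * b * c * d - 2 * t * y * z := by
    by_contra hn
    push Not at hn
    have h2 : b * (b + c + d + 2 * b * c * d - 2 * t * y * z) ≤ b * (-1) :=
      mul_le_mul_of_nonneg_left (by linarith) (by linarith)
    have h3 := sq_nonneg (t * y - b * z)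
    linarith
  refine ⟨h1, ?_⟩
  by_contra hn
  push Not at hn
  have h3 : (2 * t * y * z) ^ 2 ≤ (b + c + d + 2 * b * c * d) ^ 2 :=
    pow_le_pow_left₀ (by positivity) (by linarith) 2
  have h4 : (2 * t * y * z) ^ 2 = 4 * ((b * c + 1) * (b * d + 1) * (c * d + 1)) := by
    rw [← ht, ← hy, ← hz]; ring
  rw [h4] at h3
  have h5 : 4 * (b * c) + 4 ≤ (d - b - c) ^ 2 := by
    have e : (d - b - c) ^ 2 - 4 * (b * c) - 4 = (b + c + d + 2 * b * c * d) ^ 2 -
      4 * ((b * c + 1) * (b * d + 1) * (c * d + 1)) := by ring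
    linarith
  have h6 : (b + c - d) ^ 2 < b ^ 2 := by
    apply pow_lt_pow_left₀ _ _ (by norm_num) <;> linarith
  have h7 : (d - b - c) ^ 2 = (b + c - d) ^ 2 := by ring
  have h8 : b * b < b * c := mul_lt_mul_of_pos_left hbc (by linarith)
  have h9 : b ^ 2 = b * b := by ring
  have h10 : 0 < b * c := by
    have : 0 < b := by linarith
    have : 0 < c := by linarith
    positivity
  linarith

/-- if the smaller regular extension of `{u, c, d}` exceeds `√(cd+1)` then `d > 16 c³` -/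
theorem ext_gap {u c d s x z : ℤ} (hu : 0 < u) (huc : u < c) (hud : u + c < d)
    (hs : s ^ 2 = u * c + 1) (hx : x ^ 2 = u * d + 1) (hz : z ^ 2 = c * d + 1) (hs0 : 0 < s)
    (hx0 : 0 < x) (hz0 : 0 < z) (h : z < u + c + d + 2 * u * c * d - 2 * s * x * z) :
    16 * c ^ 3 < d := by
  have hc : 0 < c := by linarith
  have hd : 0 < d := by linarith
  obtain ⟨_, h1⟩ := root_bound hu huc hud hs hx hz hs0 hx0 hz0
  have h2 : (s * d - x * z) ^ 2 = (u + c + d + 2 * u * c * d - 2 * s * x * z) * d + 1 := by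
    have : (s * d - x * z) ^ 2 = s ^ 2 * d ^ 2 + x ^ 2 * z ^ 2 - 2 * s * d * x * z := by ring
    rw [this, hs, hx, hz]; ring
  rw [h2] at h1
  have p1 := mul_pos hu hc
  have h3 : 4 * (u * c) * (z * d) < 4 * (u * c) * ((u + c + d + 2 * u * c * d -
      2 * s * x * z) * d + 1) := by
    apply mul_lt_mul_of_pos_left _ (by positivity)
    have := mul_lt_mul_of_pos_right h hd
    linarith
  have h4 : 4 * (u * c) * z * d < d * d := by
    have e : 4 * (u * c) * z * d = 4 * (u * c) * (z * d) := by ring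
    have e' : d ^ 2 = d * d := by ring
    linarith
  have h5 : 4 * (u * c) * z < d := lt_of_mul_lt_mul_right h4 hd.le
  have h6 : 4 * c * z ≤ 4 * (u * c) * z := by
    apply mul_le_mul_of_nonneg_right _ hz0.le
    have : 1 * c ≤ u * c := mul_le_mul_of_nonneg_right (by linarith) hc.le
    linarith
  have h7 : (4 * c * z) ^ 2 < d ^ 2 := pow_lt_pow_left₀ (by linarith) (by positivity) (by norm_num)
  have h8 : (4 * c * z) ^ 2 = 16 * c ^ 3 * d + 16 * c ^ 2 := by
    have : (4 * c * z) ^ 2 = 16 * c ^ 2 * z ^ 2 := by ring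
    rw [this, hz]; ring
  rw [h8] at h7
  have h9 : 16 * c ^ 3 * d < d * d := by
    have : 0 < 16 * c ^ 2 := by positivity
    have e' : d ^ 2 = d * d := by ring
    linarith
  exact lt_of_mul_lt_mul_right h9 hd.le

/-- the gap principle -/
theorem gap {a b c d s t x y z : ℤ} (ha : 0 < a) (hab : a < b) (hbc : b < c)
    (hcd : c < d) (hs : s ^ 2 = a * c + 1) (ht : t ^ 2 = b * c + 1)
    (hx : x ^ 2 = a * d + 1) (hy : y ^ 2 = b * d + 1) (hz : z ^ 2 = c * d + 1)
    (hs0 : 0 < s) (ht0 : 0 < t) (hx0 : 0 < x) (hy0 : 0 < y) (hz0 : 0 < z)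
    (h : a ≠ b + c + d + 2 * b * c * d - 2 * t * y * z) : 16 * c ^ 3 < d := by
  have hc : 0 < c := by linarith
  have hd : 0 < d := by linarith
  obtain ⟨ha'0, hbcd⟩ := add_lt (by linarith) hbc hcd ht hy hz ht0 hy0 hz0
  have hcz : c < z := by
    have : c ^ 2 < z ^ 2 := by
      rw [hz]
      have := mul_lt_mul_of_pos_left hcd hc
      have e : c ^ 2 = c * c := by ring
      linarith
    exact lt_of_pow_lt_pow_left₀ 2 hz0.le this
  by_contra hn
  have hA : b + c + d + 2 * b * c * d - 2 * t * y * z ≤ z := by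
    by_contra h1
    push Not at h1
    exact hn (ext_gap (by linarith) hbc hbcd ht hy hz ht0 hy0 hz0 h1)
  have hB : a + c + d + 2 * a * c * d - 2 * s * x * z ≤ z := by
    by_contra h1
    push Not at h1
    exact hn (ext_gap ha (by linarith) (by linarith) hs hx hz hs0 hx0 hz0 h1)
  -- b' ≥ 0
  have hb'0 : 0 ≤ a + c + d + 2 * a * c * d - 2 * s * x * z := by
    have h0 : (s * z - c * x) ^ 2 = c * (a + c + d + 2 * a * c * d - 2 * s * x * z) + 1 := by
      have : (s * z - c * x) ^ 2 = s ^ 2 * z ^ 2 + c ^ 2 * x ^ 2 - 2 * c * s * x * z := by ring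
      rw [this, hs, hx, hz]; ring
    by_contra hn
    push Not at hn
    have h2 : c * (a + c + d + 2 * a * c * d - 2 * s * x * z) ≤ c * (-1) :=
      mul_le_mul_of_nonneg_left (by linarith) (by linarith)
    have h3 := sq_nonneg (s * z - c * x)
    linarith
  set a' := b + c + d + 2 * b * c * d - 2 * t * y * z with ha'
  set b' := a + c + d + 2 * a * c * d - 2 * s * x * z with hb'
  have e1 : (2 * c * (s * x - a * z) - z) * z = c * (c - a - b') - 1 := by
    have : (2 * c * (s * x - a * z) - z) * z = 2 * c * s * x * z - (2 * a * c + 1) * z ^ 2 := by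
      ring
    rw [this, hz, hb']; ring
  have e2 : (2 * c * (t * y - b * z) - z) * z = c * (c - b - a') - 1 := by
    have : (2 * c * (t * y - b * z) - z) * z = 2 * c * t * y * z - (2 * b * c + 1) * z ^ 2 := by
      ring
    rw [this, hz, ha']; ring
  have e3 : (s * x - a * z) ^ 2 = a * b' + 1 := by
    have : (s * x - a * z) ^ 2 = s ^ 2 * x ^ 2 + a ^ 2 * z ^ 2 - 2 * a * s * x * z := by ring
    rw [this, hs, hx, hz, hb']; ring
  have e4 : (t * y - b * z) ^ 2 = b * a' + 1 := by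
    have : (t * y - b * z) ^ 2 = t ^ 2 * y ^ 2 + b ^ 2 * z ^ 2 - 2 * b * t * y * z := by ring
    rw [this, ht, hy, hz, ha']; ring
  have bd : ∀ u v e : ℤ, 0 < u → u < c → 0 ≤ v → v ≤ z → e * z = c * (c - u - v) - 1 →
      -c < e ∧ e < c := by
    intro u v e hu hu' hv hv' he
    constructor
    · have h1 : c * (-z) < c * (c - u - v) - 1 := by
        have h2 : c * (-z + 1) ≤ c * (c - u - v) :=
          mul_le_mul_of_nonneg_left (by linarith) hc.le
        have h3 : c * (-z + 1) = c * (-z) + c := by ring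
        linarith
      have h4 : (-c) * z < e * z := by
        rw [he]
        have : (-c) * z = c * (-z) := by ring
        linarith
      exact lt_of_mul_lt_mul_right h4 hz0.le
    · have h1 : c * (c - u - v) ≤ c * z := mul_le_mul_of_nonneg_left (by linarith) hc.le
      have h4 : e * z < c * z := by
        rw [he]
        linarith
      exact lt_of_mul_lt_mul_right h4 hz0.le
  obtain ⟨l1, l2⟩ := bd a b' _ ha (by linarith) hb'0 hB e1
  obtain ⟨l3, l4⟩ := bd b a' _ (by linarith) hbc ha'0 hA e2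
  have k1 : s * x - a * z = t * y - b * z := by
    have m1 : c * ((s * x - a * z) - (t * y - b * z)) < c * 1 := by
      have : 2 * (c * ((s * x - a * z) - (t * y - b * z))) < 2 * c := by linarith
      linarith
    have m2 : c * (-1) < c * ((s * x - a * z) - (t * y - b * z)) := by
      have : -(2 * c) < 2 * (c * ((s * x - a * z) - (t * y - b * z))) := by linarith
      linarith
    have m3 := lt_of_mul_lt_mul_left m1 hc.le
    have m4 := lt_of_mul_lt_mul_left m2 hc.le
    linarith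
  rw [k1] at e1 e3
  have k2 : c * (c - a - b') = c * (c - b - a') := by linarith
  have k3 := mul_left_cancel₀ hc.ne' k2
  have k4 : a * b' = b * a' := by linarith
  have k5 : (b - a) * a = (b - a) * a' := by
    have : b' = a' + b - a := by linarith
    rw [this] at k4
    linarith
  exact h (mul_left_cancel₀ (sub_pos.2 hab).ne' k5)

theorem not_sq_succ {u v : ℤ} (hu : 0 < u) (h : v ^ 2 = u * u + 1) : False := by
  have h1 : |v| ^ 2 = u * u + 1 := by rw [sq_abs]; exact h
  have h2 : u < |v| := by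
    have : u ^ 2 < |v| ^ 2 := by rw [h1]; linarith [sq u]
    exact lt_of_pow_lt_pow_left₀ 2 (abs_nonneg v) this
  have h3 : |v| < u + 1 := by
    have : |v| ^ 2 < (u + 1) ^ 2 := by rw [h1]; linarith [show (u + 1) ^ 2 = u * u + 2 * u + 1 by ring]
    exact lt_of_pow_lt_pow_left₀ 2 (by linarith) this
  linarith

/-- five small distinct square roots of unity -/
theorem five_roots {a b c d s t x y z : ℤ} (ha : 0 < a) (hab : a < b) (hbc : b < c)
    (hcd : c < d) (hs : s ^ 2 = a * c + 1) (ht : t ^ 2 = b * c + 1)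
    (hx : x ^ 2 = a * d + 1) (hy : y ^ 2 = b * d + 1) (hz : z ^ 2 = c * d + 1)
    (hs0 : 0 < s) (ht0 : 0 < t) (hx0 : 0 < x) (hy0 : 0 < y) (hz0 : 0 < z)
    (h : a ≠ b + c + d + 2 * b * c * d - 2 * t * y * z) :
    ∃ S : Fin 5 → ℤ, Function.Injective S ∧ (∀ i, 0 < S i) ∧ (∀ i, d ∣ S i ^ 2 - 1) ∧
      ∀ i, 4 * (b * c) * S i ^ 2 < d ^ 2 := by
  have hb : 0 < b := by linarith
  have hc : 0 < c := by linarith
  have hd : 0 < d := by linarith
  have hgap := gap ha hab hbc hcd hs ht hx hy hz hs0 ht0 hx0 hy0 hz0 h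
  obtain ⟨ha'0, hbcd⟩ := add_lt (by linarith) hbc hcd ht hy hz ht0 hy0 hz0
  obtain ⟨hX0, hXb⟩ := root_bound hb hbc hbcd ht hy hz ht0 hy0 hz0
  have e1 : (t * d - y * z) ^ 2 = (b + c + d + 2 * b * c * d - 2 * t * y * z) * d + 1 := by
    have : (t * d - y * z) ^ 2 = t ^ 2 * d ^ 2 + y ^ 2 * z ^ 2 - 2 * t * d * y * z := by ring
    rw [this, ht, hy, hz]; ring
  have e2 : (t * y - b * z) ^ 2 = b * (b + c + d + 2 * b * c * d - 2 * t * y * z) + 1 := by
    have : (t * y - b * z) ^ 2 = t ^ 2 * y ^ 2 + b ^ 2 * z ^ 2 - 2 * b * t * y * z := by ring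
    rw [this, ht, hy, hz]; ring
  have e3 : (t * z - c * y) ^ 2 = c * (b + c + d + 2 * b * c * d - 2 * t * y * z) + 1 := by
    have : (t * z - c * y) ^ 2 = t ^ 2 * z ^ 2 + c ^ 2 * y ^ 2 - 2 * c * t * y * z := by ring
    rw [this, ht, hy, hz]; ring
  -- a' is positive
  have ha'1 : b + c + d + 2 * b * c * d - 2 * t * y * z ≠ 0 := by
    intro h0
    have h1 : (2 * t * y * z) ^ 2 = (b + c + d + 2 * b * c * d) ^ 2 := by
      rw [show 2 * t * y * z = b + c + d + 2 * b * c * d by linarith]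
    have h2 : (2 * t * y * z) ^ 2 = 4 * ((b * c + 1) * (b * d + 1) * (c * d + 1)) := by
      rw [← ht, ← hy, ← hz]; ring
    have h3 : (d - b - c) ^ 2 = 4 * (b * c) + 4 := by
      rw [h2] at h1
      have e : (d - b - c) ^ 2 - 4 * (b * c) - 4 = (b + c + d + 2 * b * c * d) ^ 2 -
        4 * ((b * c + 1) * (b * d + 1) * (c * d + 1)) := by ring
      linarith
    have h4 : (d - b - c) ^ 2 ≤ (2 * c) ^ 2 := by
      rw [h3]
      have h5 : b * c ≤ (c - 1) * c := mul_le_mul_of_nonneg_right (by linarith) hc.le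
      have h6 : (2 * c) ^ 2 = 4 * ((c - 1) * c) + 4 * c := by ring
      linarith
    have h5 : d - b - c ≤ 2 * c := by
      by_contra hn
      push Not at hn
      have := pow_lt_pow_left₀ hn (by positivity) (two_ne_zero)
      linarith
    have h6 : 1 * c ≤ c ^ 2 * c := by
      apply mul_le_mul_of_nonneg_right _ hc.le
      have : 0 < c ^ 2 := by positivity
      linarith
    have h7 : c ^ 3 = c ^ 2 * c := by ring
    linarith
  have ha'2 : 0 < b + c + d + 2 * b * c * d - 2 * t * y * z := lt_of_le_of_ne ha'0 (Ne.symm ha'1)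
  have hab' : b + c + d + 2 * b * c * d - 2 * t * y * z ≠ b := fun h0 => by
    rw [h0] at e2
    exact not_sq_succ hb e2
  have hac' : b + c + d + 2 * b * c * d - 2 * t * y * z ≠ c := fun h0 => by
    rw [h0] at e3
    exact not_sq_succ hc e3
  set a' := b + c + d + 2 * b * c * d - 2 * t * y * z with ha'
  set X := t * d - y * z with hX
  -- comparison of roots
  have cmp : ∀ u v p q : ℤ, 0 < p → 0 < q → p ^ 2 = u * d + 1 → q ^ 2 = v * d + 1 → u ≠ v →
      p ≠ q := by
    intro u v p q _ _ hp hq huv hpq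
    rw [hpq, hq] at hp
    have : v * d = u * d := by linarith
    exact huv (mul_right_cancel₀ hd.ne' this).symm
  have cmp1 : ∀ u p : ℤ, 0 < u → p ^ 2 = u * d + 1 → p ≠ 1 := by
    intro u p hu hp h1
    rw [h1] at hp
    have := mul_pos hu hd
    linarith
  have hzb : 4 * (b * c) * (c * d + 1) < d ^ 2 := by
    have h1 : 16 * c ^ 3 * d < d * d := mul_lt_mul_of_pos_right hgap hd
    have h2 : b * c * (c * d) ≤ c * c * (c * d) := by
      apply mul_le_mul_of_nonneg_right _ (by positivity)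
      exact mul_le_mul_of_nonneg_right hbc.le hc.le
    have h3 : c * c * (c * d) = c ^ 3 * d := by ring
    have h4 : b * c ≤ c ^ 3 * d := by
      have h5 : b * c ≤ c * c := mul_le_mul_of_nonneg_right hbc.le hc.le
      have h6 : c * c * 1 ≤ c * c * (c * d) := by
        apply mul_le_mul_of_nonneg_left _ (by positivity)
        have := mul_pos hc hd
        linarith
      linarith
    have h7 : d ^ 2 = d * d := by ring
    have h8 : 4 * (b * c) * (c * d + 1) = 4 * (b * c * (c * d)) + 4 * (b * c) := by ring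
    have h9 : 0 < c ^ 3 * d := by positivity
    linarith
  have small : ∀ u p : ℤ, 0 ≤ u → u ≤ c → p ^ 2 = u * d + 1 → 4 * (b * c) * p ^ 2 < d ^ 2 := by
    intro u p hu huc hp
    rw [hp]
    refine lt_of_le_of_lt ?_ hzb
    apply mul_le_mul_of_nonneg_left _ (by positivity)
    have := mul_le_mul_of_nonneg_right huc hd.le
    linarith
  refine ⟨![1, x, y, z, X], ?_, ?_, ?_, ?_⟩
  · have n1 := cmp1 a x ha hx
    have n2 := cmp1 b y hb hy
    have n3 := cmp1 c z hc hz
    have n4 := cmp1 a' X ha'2 e1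
    have n5 := cmp a b x y hx0 hy0 hx hy hab.ne
    have n6 := cmp a c x z hx0 hz0 hx hz (by linarith)
    have n7 := cmp a a' x X hx0 hX0 hx e1 h
    have n8 := cmp b c y z hy0 hz0 hy hz hbc.ne
    have n9 := cmp b a' y X hy0 hX0 hy e1 hab'.symm
    have n10 := cmp c a' z X hz0 hX0 hz e1 hac'.symm
    intro i j hij
    fin_cases i <;> fin_cases j <;> simp at hij ⊢ <;> first | exact absurd hij ‹_› |
      exact absurd hij.symm ‹_›
  · intro i
    fin_cases i <;> simp <;> assumption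
  · intro i
    fin_cases i
    · simp
    · exact ⟨a, by simp [hx]; ring⟩
    · exact ⟨b, by simp [hy]; ring⟩
    · exact ⟨c, by simp [hz]; ring⟩
    · exact ⟨a', by simp [e1]; ring⟩
  · intro i
    fin_cases i
    · simpa using small 0 1 le_rfl hc.le (by ring)
    · exact small a x ha.le (by linarith) hx
    · exact small b y hb.le hbc.le hy
    · exact small c z hc.le le_rfl hz
    · exact hXb

/-- more than nine square roots of unity -/
theorem pigeon {n : ℕ} {m e d : ℤ} (hd0 : 0 < d) (hd : d = m * n) (he : 0 < e)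
    (hm : m ^ 2 ≤ e) (S : Fin 5 → ℤ) (hinj : Function.Injective S) (hpos : ∀ i, 0 < S i)
    (hdvd : ∀ i, d ∣ S i ^ 2 - 1) (hsm : ∀ i, 4 * e * S i ^ 2 < d ^ 2)
    (hcard : ((Finset.range n).filter fun u => u ^ 2 ≡ 1 [MOD n]).card ≤ 9) : False := by
  have hn : 0 < (n : ℤ) := by
    rcases Nat.eq_zero_or_pos n with h | h
    · rw [h] at hd; simp at hd; omega
    · exact_mod_cast h
  have h2 : ∀ i, 2 * S i < n := by
    intro i
    have h1 : e * (2 * S i) ^ 2 < e * (n : ℤ) ^ 2 := by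
      calc e * (2 * S i) ^ 2 = 4 * e * S i ^ 2 := by ring
        _ < d ^ 2 := hsm i
        _ = m ^ 2 * (n : ℤ) ^ 2 := by rw [hd]; ring
        _ ≤ e * (n : ℤ) ^ 2 := mul_le_mul_of_nonneg_right hm (by positivity)
    exact lt_of_pow_lt_pow_left₀ 2 hn.le (lt_of_mul_lt_mul_left h1 he.le)
  let g : Fin 5 × Bool → ℤ := fun p => if p.2 then S p.1 else - S p.1
  have hgsq : ∀ p, g p ^ 2 = S p.1 ^ 2 := by
    rintro ⟨i, b⟩
    cases b <;> simp [g]
  have hgabs : ∀ p, -(n : ℤ) < 2 * g p ∧ 2 * g p < n := by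
    rintro ⟨i, b⟩
    have h3 := h2 i
    have h4 := hpos i
    cases b <;> simp [g] <;> constructor <;> omega
  have hginj : Function.Injective g := by
    rintro ⟨i, b⟩ ⟨j, b'⟩ h
    have h3 := hpos i
    have h4 := hpos j
    cases b <;> cases b' <;> simp [g] at h ⊢
    · exact hinj h
    · omega
    · omega
    · exact hinj h
  let f : Fin 5 × Bool → ℕ := fun p => (g p % n).toNat
  have hf : ∀ p, ((f p : ℕ) : ℤ) = g p % n := by
    intro p
    exact Int.toNat_of_nonneg (Int.emod_nonneg _ hn.ne')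
  have hfinj : Function.Injective f := by
    intro p q h
    have h3 : g p % n = g q % n := by rw [← hf, ← hf, h]
    have h4 : (n : ℤ) ∣ g p - g q := Int.ModEq.dvd (show g q ≡ g p [ZMOD n] from h3.symm)
    obtain ⟨k1, k2⟩ := hgabs p
    obtain ⟨k3, k4⟩ := hgabs q
    have h5 : |g p - g q| < n := abs_lt.2 ⟨by omega, by omega⟩
    exact hginj (sub_eq_zero.1 (Int.eq_zero_of_abs_lt_dvd h4 h5))
  have hfmem : ∀ p, f p ∈ (Finset.range n).filter fun u => u ^ 2 ≡ 1 [MOD n] := by
    intro p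
    rw [Finset.mem_filter, Finset.mem_range]
    constructor
    · have := Int.emod_lt_of_pos (g p) hn
      rw [← hf] at this
      exact_mod_cast this
    · rw [← Int.natCast_modEq_iff]
      push_cast
      rw [hf]
      have h3 : (g p % n) ^ 2 ≡ g p ^ 2 [ZMOD n] := (Int.mod_modEq _ _).pow 2
      refine h3.trans ?_
      rw [hgsq]
      have h4 : (n : ℤ) ∣ S p.1 ^ 2 - 1 := (Dvd.intro_left m hd.symm).trans (hdvd p.1)
      exact (Int.modEq_iff_dvd.2 h4).symm
  have h10 : (Finset.univ : Finset (Fin 5 × Bool)).card ≤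
      ((Finset.range n).filter fun u => u ^ 2 ≡ 1 [MOD n]).card :=
    Finset.card_le_card_of_injOn f (fun p _ => hfmem p) hfinj.injOn
  have h11 : (Finset.univ : Finset (Fin 5 × Bool)).card = 10 := by decide
  omega

/-- square roots of unity modulo a prime power -/
theorem prime_pow_root {p k : ℕ} (hp : p.Prime) (hk : ¬ 8 ∣ p ^ k) {u : ℤ}
    (h : ((p ^ k : ℕ) : ℤ) ∣ u ^ 2 - 1) :
    ((p ^ k : ℕ) : ℤ) ∣ u + 1 ∨ ((p ^ k : ℕ) : ℤ) ∣ u - 1 := by
  have he : u ^ 2 - 1 = (u + 1) * (u - 1) := by ring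
  rcases Nat.eq_zero_or_pos k with hk0 | hk0
  · left; subst hk0; simp
  by_cases hp2 : p = 2
  · subst hp2
    have hk3 : k < 3 := by
      by_contra hn
      have h23 : 2 ^ 3 ∣ 2 ^ k := pow_dvd_pow 2 (not_lt.1 hn)
      exact hk h23
    have hodd : (2 : ℤ) ∣ u ^ 2 - 1 := by
      refine Dvd.dvd.trans ?_ h
      push_cast
      exact dvd_pow_self 2 (by omega)
    have hu : u % 2 = 1 := by
      rcases Int.emod_two_eq_zero_or_one u with h0 | h1
      · exfalso
        have : (2 : ℤ) ∣ u ^ 2 := dvd_pow (Int.dvd_of_emod_eq_zero h0) two_ne_zero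
        have := (Int.dvd_iff_dvd_of_dvd_sub hodd).1 this
        omega
      · exact h1
    interval_cases k
    · left; simp; omega
    · have : u % 4 = 1 ∨ u % 4 = 3 := by omega
      rcases this with h4 | h4
      · right; simp; omega
      · left; simp; omega
  · rw [he] at h
    have hpi : Prime ((p : ℕ) : ℤ) := Nat.prime_iff_prime_int.1 hp
    by_cases h1 : (p : ℤ) ∣ u + 1
    · left
      have h2 : ¬ (p : ℤ) ∣ u - 1 := by
        intro h2
        have h3 : (p : ℤ) ∣ 2 := by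
          have := dvd_sub h1 h2
          have e : u + 1 - (u - 1) = 2 := by ring
          rwa [e] at this
        have h4 : p ∣ 2 := by exact_mod_cast h3
        exact hp2 ((Nat.prime_dvd_prime_iff_eq hp Nat.prime_two).1 h4)
      have h5 : IsCoprime ((p ^ k : ℕ) : ℤ) (u - 1) := by
        push_cast
        exact ((Prime.coprime_iff_not_dvd hpi).2 h2).pow_left
      exact h5.dvd_of_dvd_mul_right h
    · right
      have h5 : IsCoprime ((p ^ k : ℕ) : ℤ) (u + 1) := by
        push_cast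
        exact ((Prime.coprime_iff_not_dvd hpi).2 h1).pow_left
      exact h5.dvd_of_dvd_mul_left h

/-- a number with at most three prime factors and not divisible by eight has at most eight square
roots of unity -/
theorem few_roots {n : ℕ} (h8 : ¬ 8 ∣ n) (h3 : n.primeFactors.card ≤ 3) :
    ((Finset.range n).filter fun u => u ^ 2 ≡ 1 [MOD n]).card ≤ 8 := by
  have hn : n ≠ 0 := by
    rintro rfl
    exact h8 (dvd_zero 8)
  let F : ℕ → Finset ℕ := fun u =>
    n.primeFactors.filter fun p => ((p ^ n.factorization p : ℕ) : ℤ) ∣ (u : ℤ) + 1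
  have hle : ((Finset.range n).filter fun u => u ^ 2 ≡ 1 [MOD n]).card ≤
      (n.primeFactors.powerset).card := by
    apply Finset.card_le_card_of_injOn F
    · intro u _
      exact Finset.mem_coe.2 (Finset.mem_powerset.2 (Finset.filter_subset _ _))
    · intro u hu v hv huv
      rw [Finset.mem_coe, Finset.mem_filter, Finset.mem_range] at hu hv
      have key : ∀ w : ℕ, w ^ 2 ≡ 1 [MOD n] → ∀ p ∈ n.primeFactors,
          ((p ^ n.factorization p : ℕ) : ℤ) ∣ (w : ℤ) + 1 ∨
          ((p ^ n.factorization p : ℕ) : ℤ) ∣ (w : ℤ) - 1 := by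
        intro w hw p hp
        have hpn : p ^ n.factorization p ∣ n := Nat.ordProj_dvd n p
        apply prime_pow_root (Nat.prime_of_mem_primeFactors hp) (fun h => h8 (h.trans hpn))
        have h1 : (n : ℤ) ∣ (w : ℤ) ^ 2 - 1 := by
          have := (Int.natCast_modEq_iff.2 hw)
          push_cast at this
          exact Int.modEq_iff_dvd.1 this.symm
        exact (Int.natCast_dvd_natCast.2 hpn).trans h1
      have hdv : ∀ p ∈ n.primeFactors, ((p ^ n.factorization p : ℕ) : ℤ) ∣ (u : ℤ) - v := by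
        intro p hp
        by_cases h1 : ((p ^ n.factorization p : ℕ) : ℤ) ∣ (u : ℤ) + 1
        · have h2 : p ∈ F u := by simp only [F]; exact Finset.mem_filter.2 ⟨hp, h1⟩
          rw [huv] at h2
          have h3 := (Finset.mem_filter.1 h2).2
          have := dvd_sub h1 h3
          have e : (u : ℤ) + 1 - (v + 1) = u - v := by ring
          rwa [e] at this
        · have h2 : ¬ ((p ^ n.factorization p : ℕ) : ℤ) ∣ (v : ℤ) + 1 := by
            intro h2
            have h3 : p ∈ F v := by simp only [F]; exact Finset.mem_filter.2 ⟨hp, h2⟩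
            rw [← huv] at h3
            exact h1 (Finset.mem_filter.1 h3).2
          have h3 := (key u hu.2 p hp).resolve_left h1
          have h4 := (key v hv.2 p hp).resolve_left h2
          have := dvd_sub h3 h4
          have e : (u : ℤ) - 1 - (v - 1) = u - v := by ring
          rwa [e] at this
      have hnd : (n : ℤ) ∣ (u : ℤ) - v := by
        rw [Int.natCast_dvd]
        rw [Nat.dvd_iff_prime_pow_dvd_dvd]
        intro p k hp hk
        rcases Nat.eq_zero_or_pos k with hk0 | hk0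
        · subst hk0; simp
        have hpn : p ∣ n := (dvd_pow_self p (by omega)).trans hk
        have hmem : p ∈ n.primeFactors := Nat.mem_primeFactors.2 ⟨hp, hpn, hn⟩
        have hkle : k ≤ n.factorization p := (hp.pow_dvd_iff_le_factorization hn).1 hk
        exact (pow_dvd_pow p hkle).trans (Int.natCast_dvd.1 (hdv p hmem))
      have habs : |(u : ℤ) - v| < n := by
        rw [abs_lt]
        constructor <;> omega
      have := Int.eq_zero_of_abs_lt_dvd hnd habs
      omega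
  rw [Finset.card_powerset] at hle
  refine hle.trans ?_
  calc 2 ^ n.primeFactors.card ≤ 2 ^ 3 := Nat.pow_le_pow_right (by norm_num) h3
    _ = 8 := by norm_num

theorem exists_root {x y : ℕ} (h : IsSquare (x * y + 1)) :
    ∃ r : ℤ, 0 < r ∧ r ^ 2 = (x : ℤ) * y + 1 := by
  obtain ⟨r, hr⟩ := h
  refine ⟨r, ?_, ?_⟩
  · rcases Nat.eq_zero_or_pos r with h0 | h0
    · subst h0; omega
    · exact_mod_cast h0
  · have : (r : ℤ) ^ 2 = ((r * r : ℕ) : ℤ) := by push_cast; ring
    rw [this, ← hr]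
    push_cast
    ring

/-- size of the three roots attached to a pair -/
theorem size {u' v' c d ρ u v : ℤ} (hu' : 0 < u') (huv : u' < v') (hvc : v' ≤ c) (hc : 3 ≤ c)
    (hd : 16 * c ^ 3 < d) (hρ : ρ ^ 2 = u' * v' + 1) (hu : u ^ 2 = u' * d + 1)
    (hv : v ^ 2 = v' * d + 1) (hρ0 : 0 < ρ) (hu0 : 0 < u) (hv0 : 0 < v) :
    1 < ρ * d - u * v ∧ 4 * (u' * v') * (ρ * d - u * v) ^ 2 < d ^ 2 ∧ 4 * c < u ∧ 4 * c < v ∧
      u' * v' * (ρ * d - u * v + 1) < (u - 1) * (v - 1) := by
  have hv' : 0 < v' := by linarith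
  have hc0 : 0 < c := by linarith
  have hc2 : 9 ≤ c ^ 2 := by nlinarith
  have hc3 : 9 * c ≤ c ^ 3 := by
    have : c ^ 3 = c ^ 2 * c := by ring
    rw [this]
    exact mul_le_mul_of_nonneg_right hc2 hc0.le
  have hd0 : 0 < d := by linarith
  have hsum : u' + v' < d := by linarith
  obtain ⟨hX0, hXb⟩ := root_bound hu' huv hsum hρ hu hv hρ0 hu0 hv0
  have hu1 : 4 * c < u := by
    have : (4 * c) ^ 2 < u ^ 2 := by
      rw [hu]
      have h1 : 1 * d ≤ u' * d := mul_le_mul_of_nonneg_right (by linarith) hd0.le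
      have h2 : (4 * c) ^ 2 = 16 * (c ^ 2 * 1) := by ring
      have h3 : c ^ 2 * 1 ≤ c ^ 2 * c := mul_le_mul_of_nonneg_left (by linarith) (by positivity)
      have h4 : c ^ 3 = c ^ 2 * c := by ring
      linarith
    exact lt_of_pow_lt_pow_left₀ 2 hu0.le this
  have hv1 : 4 * c < v := by
    have : (4 * c) ^ 2 < v ^ 2 := by
      rw [hv]
      have h1 : 1 * d ≤ v' * d := mul_le_mul_of_nonneg_right (by linarith) hd0.le
      have h2 : (4 * c) ^ 2 = 16 * (c ^ 2 * 1) := by ring
      have h3 : c ^ 2 * 1 ≤ c ^ 2 * c := mul_le_mul_of_nonneg_left (by linarith) (by positivity)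
      have h4 : c ^ 3 = c ^ 2 * c := by ring
      linarith
    exact lt_of_pow_lt_pow_left₀ 2 hv0.le this
  have huv1 : u' * v' ≤ c * c := by
    apply mul_le_mul (by linarith) hvc hv'.le hc0.le
  refine ⟨?_, hXb, hu1, hv1, ?_⟩
  · by_contra hn
    have hX1 : ρ * d - u * v = 1 := by omega
    have h1 : (ρ * d - u * v) * (ρ * d + u * v) = d ^ 2 - (u' + v') * d - 1 := by
      have : (ρ * d - u * v) * (ρ * d + u * v) = ρ ^ 2 * d ^ 2 - u ^ 2 * v ^ 2 := by ring
      rw [this, hρ, hu, hv]; ring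
    rw [hX1, one_mul] at h1
    have h2 : ρ ≤ c := by
      have : ρ ^ 2 ≤ c ^ 2 := by
        rw [hρ]
        have : u' * v' ≤ (c - 1) * c := mul_le_mul (by linarith) hvc hv'.le (by linarith)
        nlinarith
      exact le_of_sq_le_sq this hc0.le
    have h3 : u * v ≤ c * d + 1 := by
      have h4 : 0 ≤ (u - v) ^ 2 := sq_nonneg _
      have h5 : u' * d ≤ c * d := mul_le_mul_of_nonneg_right (by linarith) hd0.le
      have h6 : v' * d ≤ c * d := mul_le_mul_of_nonneg_right (by linarith) hd0.le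
      nlinarith
    have h4 : ρ * d ≤ c * d := mul_le_mul_of_nonneg_right h2 hd0.le
    have h5 : (u' + v') * d ≤ (2 * c) * d := mul_le_mul_of_nonneg_right (by linarith) hd0.le
    have h6 : (4 * c + 1) * d ≤ d * d := mul_le_mul_of_nonneg_right (by linarith) hd0.le
    nlinarith
  · set X := ρ * d - u * v with hX
    have h1 : 2 * (u' * v') * X < u * v := by
      have h2 : (2 * (u' * v') * X) ^ 2 < (u * v) ^ 2 := by
        have e1 : (2 * (u' * v') * X) ^ 2 = (u' * v') * (4 * (u' * v') * X ^ 2) := by ring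
        have e2 : (u * v) ^ 2 = (u' * v') * d ^ 2 + (u' * d + v' * d + 1) := by
          rw [mul_pow, hu, hv]; ring
        rw [e1, e2]
        have h3 : (u' * v') * (4 * (u' * v') * X ^ 2) < (u' * v') * d ^ 2 :=
          mul_lt_mul_of_pos_left hXb (by positivity)
        have h4 : 0 < u' * d + v' * d + 1 := by positivity
        linarith
      exact lt_of_pow_lt_pow_left₀ 2 (by positivity) h2
    have h2 : (4 * c - 1) * (4 * c - 1) ≤ (u - 2) * (v - 2) :=
      mul_le_mul (by linarith) (by linarith) (by linarith) (by linarith)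
    nlinarith

/-- if `d` is odd or twice an odd number, no cell of a pair of roots is trivial -/
theorem cell_odd {u' v' d ρ u v ε ε' : ℤ} {e : ℕ} (he : 0 < e) (ho : ¬ 2 ∣ e)
    (hde : d = e ∨ d = 2 * e)
    (hε : ε = 1 ∨ ε = -1) (hε' : ε' = 1 ∨ ε' = -1) (hu' : 0 < u') (hv' : 0 < v')
    (hu : u ^ 2 = u' * d + 1) (hv : v ^ 2 = v' * d + 1) (hu1 : 1 < u) (hv1 : 1 < v)
    (hX : 1 < ρ * d - u * v)
    (hs : u' * v' * (ρ * d - u * v + 1) < (u - 1) * (v - 1)) :
    ∃ p : ℕ, p.Prime ∧ p ∣ e ∧ (p : ℤ) ∣ u - ε ∧ (p : ℤ) ∣ v - ε' := by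
  by_contra hg
  push Not at hg
  have key : ∀ w w' η : ℤ, (η = 1 ∨ η = -1) → 0 < w' → 1 < w → w ^ 2 = w' * d + 1 →
      ∃ α β : ℕ, α * β = e ∧ (α : ℤ) ∣ w - η ∧ (β : ℤ) ∣ w + η ∧ w - η ≤ w' * α := by
    intro w w' η hη hw' hw1 hw
    have h1 : (w - η) * (w + η) = w' * d := by
      have : (w - η) * (w + η) = w ^ 2 - η ^ 2 := by ring
      rw [this, hw]
      rcases hη with h | h <;> rw [h] <;> ring
    have h2 : (e : ℤ) ∣ (w - η) * (w + η) := by
      rw [h1]
      rcases hde with h | h <;> rw [h]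
      · exact dvd_mul_left _ _
      · exact (dvd_mul_left _ _).trans (dvd_mul_left _ _)
    have h3 : e ∣ (w - η).natAbs * (w + η).natAbs := by
      rw [← Int.natAbs_mul]
      exact Int.natCast_dvd.1 h2
    obtain ⟨α, β, hα, hβ, hαβ⟩ := exists_dvd_and_dvd_of_dvd_mul h3
    have hα' : (α : ℤ) ∣ w - η := Int.natCast_dvd.2 hα
    have hβ' : (β : ℤ) ∣ w + η := Int.natCast_dvd.2 hβ
    refine ⟨α, β, hαβ.symm, hα', hβ', ?_⟩
    obtain ⟨q, hq⟩ := hα'
    obtain ⟨k, hk⟩ := hβ'
    have hα0 : 0 < α := Nat.pos_of_ne_zero (by rintro rfl; simp at hαβ; omega)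
    have hβ0 : 0 < β := Nat.pos_of_ne_zero (by rintro rfl; simp at hαβ; omega)
    have hα0' : (0 : ℤ) < α := by exact_mod_cast hα0
    have hβ0' : (0 : ℤ) < β := by exact_mod_cast hβ0
    have hk0 : 0 < k := by
      have : 0 < w + η := by rcases hη with h | h <;> rw [h] <;> linarith
      rw [hk] at this
      exact (mul_pos_iff_of_pos_left hβ0').1 this
    have hq0 : 0 ≤ q := by
      have : 0 ≤ w - η := by rcases hη with h | h <;> rw [h] <;> linarith
      rw [hq] at this
      exact (mul_nonneg_iff_of_pos_left hα0').1 this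
    rw [hq, mul_comm w']
    apply mul_le_mul_of_nonneg_left _ hα0'.le
    have he' : (e : ℤ) = α * β := by rw [hαβ]; push_cast; ring
    have he0' : (0 : ℤ) < e := by exact_mod_cast he
    have h4 : (e : ℤ) * (q * k) = w' * d := by
      rw [he', ← h1, hq, hk]; ring
    rcases hde with h | h
    · rw [h] at h4
      have h5 : (e : ℤ) * (q * k) = e * w' := by linarith
      have h6 := mul_left_cancel₀ he0'.ne' h5
      nlinarith
    · rw [h] at h4
      have h5 : (e : ℤ) * (q * k) = e * (2 * w') := by linarith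
      have h6 := mul_left_cancel₀ he0'.ne' h5
      have hk2 : 2 ≤ k := by
        have h7 : (2 : ℤ) ∣ w ^ 2 - 1 := ⟨w' * e, by rw [hw, h]; ring⟩
        have h8 : w % 2 = 1 := by
          rcases Int.emod_two_eq_zero_or_one w with h0 | h1
          · exfalso
            have h9 : (2 : ℤ) ∣ w ^ 2 := dvd_pow (Int.dvd_of_emod_eq_zero h0) two_ne_zero
            have := (Int.dvd_iff_dvd_of_dvd_sub h7).1 h9
            omega
          · exact h1
        have h9 : (2 : ℤ) ∣ w + η := by rcases hη with h | h <;> rw [h] <;> omega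
        rw [hk] at h9
        rcases Int.Prime.dvd_mul' Nat.prime_two h9 with h10 | h10
        · exfalso
          have : 2 ∣ β := by exact_mod_cast h10
          exact ho (this.trans ⟨α, by rw [hαβ]; ring⟩)
        · have : (2 : ℤ) ∣ k := by exact_mod_cast h10
          exact Int.le_of_dvd hk0 this
      nlinarith
  obtain ⟨α, β, h1, h2, h3, h4⟩ := key u u' ε hε hu' hu1 hu
  obtain ⟨α', β', h1', h2', h3', h4'⟩ := key v v' ε' hε' hv' hv1 hv
  have hcop : Nat.Coprime α α' := by
    apply Nat.Coprime.symm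
    rw [Nat.coprime_iff_gcd_eq_one]
    by_contra hne
    obtain ⟨p, hp, hpd⟩ := Nat.exists_prime_and_dvd hne
    have hpa' : p ∣ α' := hpd.trans (Nat.gcd_dvd_left _ _)
    have hpa : p ∣ α := hpd.trans (Nat.gcd_dvd_right _ _)
    refine hg p hp (hpa.trans ⟨β, h1.symm⟩) ?_ ?_
    · exact (Int.natCast_dvd_natCast.2 hpa).trans h2
    · exact (Int.natCast_dvd_natCast.2 hpa').trans h2'
  have k1 : α ∣ β' := hcop.dvd_of_dvd_mul_left (by rw [h1', ← h1]; exact dvd_mul_right _ _)
  have k2 : α' ∣ β := hcop.symm.dvd_of_dvd_mul_left (by rw [h1, ← h1']; exact dvd_mul_right _ _)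
  have k3 : α * α' ∣ e := hcop.mul_dvd_of_dvd_of_dvd ⟨β, h1.symm⟩ ⟨β', h1'.symm⟩
  have m1 : ((α * α' : ℕ) : ℤ) ∣ (u - ε) * (v - ε') := by
    push_cast
    exact mul_dvd_mul h2 h2'
  have m2 : ((α * α' : ℕ) : ℤ) ∣ (u + ε) * (v + ε') := by
    push_cast
    rw [mul_comm]
    exact mul_dvd_mul ((Int.natCast_dvd_natCast.2 k2).trans h3)
      ((Int.natCast_dvd_natCast.2 k1).trans h3')
  have m3 : ((α * α' : ℕ) : ℤ) ∣ 2 * (u * v + ε * ε') := by
    have := dvd_add m1 m2
    have e1 : (u - ε) * (v - ε') + (u + ε) * (v + ε') = 2 * (u * v + ε * ε') := by ring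
    rwa [e1] at this
  have hodd : Nat.Coprime (α * α') 2 := by
    rw [Nat.coprime_comm, Nat.Prime.coprime_iff_not_dvd Nat.prime_two]
    exact fun h => ho (h.trans k3)
  have m4 : ((α * α' : ℕ) : ℤ) ∣ u * v + ε * ε' := by
    have hc : IsCoprime ((α * α' : ℕ) : ℤ) 2 := by
      have := Nat.isCoprime_iff_coprime.2 hodd
      exact_mod_cast this
    exact hc.dvd_of_dvd_mul_left m3
  have m5 : ((α * α' : ℕ) : ℤ) ∣ d := by
    have := Int.natCast_dvd_natCast.2 k3
    rcases hde with h | h <;> rw [h]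
    · exact this
    · exact this.trans (dvd_mul_left _ _)
  have m6 : ((α * α' : ℕ) : ℤ) ∣ ρ * d - u * v - ε * ε' := by
    have := dvd_sub (m5.mul_left ρ) m4
    have e1 : ρ * d - (u * v + ε * ε') = ρ * d - u * v - ε * ε' := by ring
    rwa [e1] at this
  have hεε : ε * ε' = 1 ∨ ε * ε' = -1 := by
    rcases hε with h | h <;> rcases hε' with h' | h' <;> rw [h, h'] <;> norm_num
  have m7 : ((α * α' : ℕ) : ℤ) ≤ ρ * d - u * v - ε * ε' := by
    apply Int.le_of_dvd _ m6
    rcases hεε with h | h <;> rw [h] <;> linarith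
  have m8 : (α : ℤ) * α' ≤ ρ * d - u * v + 1 := by
    push_cast at m7
    rcases hεε with h | h <;> rw [h] at m7 <;> linarith
  have hw1 : u - 1 ≤ u - ε := by rcases hε with h | h <;> linarith
  have hw2 : v - 1 ≤ v - ε' := by rcases hε' with h | h <;> linarith
  have m9 : (u - 1) * (v - 1) ≤ (u' * α) * (v' * α') :=
    mul_le_mul (hw1.trans h4) (hw2.trans h4') (by linarith) (by positivity)
  have m10 : (u' * α) * (v' * α') = u' * v' * (α * α') := by ring
  have m11 : u' * v' * (α * α') ≤ u' * v' * (ρ * d - u * v + 1) :=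
    mul_le_mul_of_nonneg_left m8 (by positivity)
  linarith

/-- the linear system of the borderline case has no solution -/
theorem system {u' v' c P Q K ε ε' : ℤ} (hu' : 0 < u') (huv : u' < v') (hvc : v' ≤ c)
    (hε : ε = 1 ∨ ε = -1) (hε' : ε' = 1 ∨ ε' = -1) (hP : 2 * c ≤ P) (hQ : 2 * c ≤ Q)
    (h1 : P * u' + ε = K * Q) (h2 : Q * v' + ε' = K * P) : False := by
  have hc : 0 < c := by linarith
  have hP0 : 0 < P := by linarith
  have hQ0 : 0 < Q := by linarith
  have hv' : 0 < v' := by linarith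
  have h3 : P * Q * (K ^ 2 - u' * v') = ε' * (P * u') + ε * (Q * v') + ε * ε' := by
    have : P * Q * K ^ 2 = (P * u' + ε) * (Q * v' + ε') := by rw [h1, h2]; ring
    linarith [this, show P * Q * (K ^ 2 - u' * v') = P * Q * K ^ 2 - P * Q * (u' * v') by ring,
      show (P * u' + ε) * (Q * v' + ε') = P * Q * (u' * v') +
        (ε' * (P * u') + ε * (Q * v') + ε * ε') by ring]
  have h4 : P * u' + Q * v' + 1 < P * Q := by
    have e1 : P * u' ≤ P * (c - 1) := mul_le_mul_of_nonneg_left (by linarith) hP0.le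
    have e2 : Q * v' ≤ Q * c := mul_le_mul_of_nonneg_left hvc hQ0.le
    have e3 : (2 * c) * Q ≤ P * Q := mul_le_mul_of_nonneg_right hP hQ0.le
    have e4 : P * (2 * c) ≤ P * Q := mul_le_mul_of_nonneg_left hQ hP0.le
    have : P * (c - 1) + Q * c + P ≤ P * Q := by nlinarith
    linarith
  have hPu : 0 < P * u' := mul_pos hP0 hu'
  have hQv : 0 < Q * v' := mul_pos hQ0 hv'
  have h5 : |ε' * (P * u') + ε * (Q * v') + ε * ε'| < P * Q := by
    rw [abs_lt]
    rcases hε with h | h <;> rcases hε' with h' | h' <;> rw [h, h'] <;> constructor <;> linarith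
  have h6 : ε' * (P * u') + ε * (Q * v') + ε * ε' = 0 :=
    Int.eq_zero_of_abs_lt_dvd ⟨_, h3.symm⟩ h5
  have h7 : K ^ 2 - u' * v' = 0 := by
    rw [h6] at h3
    exact (mul_eq_zero.1 h3).resolve_left (by positivity)
  rcases hε with h | h <;> rcases hε' with h' | h' <;> rw [h, h'] at h6
  · linarith
  · have h8 : Q * v' = Q * K := by rw [h] at h1; linarith
    have h9 := mul_left_cancel₀ hQ0.ne' h8
    rw [← h9] at h7
    have h10 : v' * (v' - u') = 0 := by linarith [show v' * (v' - u') = v' ^ 2 - u' * v' by ring]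
    have h11 : 0 < v' * (v' - u') := mul_pos hv' (by linarith)
    linarith
  · have h8 : P * u' = P * K := by rw [h'] at h2; linarith
    have h9 := mul_left_cancel₀ hP0.ne' h8
    rw [← h9] at h7
    have h10 : u' * (v' - u') = 0 := by linarith [show u' * (v' - u') = -(u' ^ 2 - u' * v') by ring]
    have h11 : 0 < u' * (v' - u') := mul_pos hu' (by linarith)
    linarith
  · linarith

/-- if `4 ∣ d`, no cell of a pair of roots is trivial -/
theorem cell_even {u' v' c d ρ u v U V ε ε' : ℤ} {e : ℕ} (he : 0 < e) (hde : d = 4 * e)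
    (hε : ε = 1 ∨ ε = -1) (hε' : ε' = 1 ∨ ε' = -1) (hu' : 0 < u') (huv : u' < v')
    (hvc : v' ≤ c) (hd : 16 * c ^ 3 < d)
    (hu : u ^ 2 = u' * d + 1) (hv : v ^ 2 = v' * d + 1) (hu1 : 4 * c < u) (hv1 : 4 * c < v)
    (hX : 1 < ρ * d - u * v) (hU : u = 2 * U + ε) (hV : v = 2 * V + ε')
    (hs : u' * v' * (ρ * d - u * v + 1) < (u - 1) * (v - 1)) :
    ∃ p : ℕ, p.Prime ∧ p ∣ e ∧ (p : ℤ) ∣ U ∧ (p : ℤ) ∣ V := by
  by_contra hg
  push Not at hg
  have hv' : 0 < v' := by linarith
  have hc0 : 0 < c := by linarith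
  have he0' : (0 : ℤ) < e := by exact_mod_cast he
  have key : ∀ w w' W η : ℤ, (η = 1 ∨ η = -1) → 0 < w' → 4 * c < w → w ^ 2 = w' * d + 1 →
      w = 2 * W + η →
      ∃ α β : ℕ, ∃ q k : ℤ, α * β = e ∧ W = α * q ∧ W + η = β * k ∧ q * k = w' ∧ 0 < α ∧ 0 < β ∧
        0 < q ∧ 0 < k := by
    intro w w' W η hη hw' hw1 hw hW
    have h1 : W * (W + η) = w' * e := by
      have h2 : 4 * (W * (W + η)) = 4 * (w' * e) := by
        have h3 : 4 * (W * (W + η)) = (2 * W + η) ^ 2 - η ^ 2 := by ring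
        have h4 : η ^ 2 = 1 := by rcases hη with h | h <;> rw [h] <;> norm_num
        rw [h3, ← hW, hw, h4, hde]; ring
      linarith
    have h3 : e ∣ W.natAbs * (W + η).natAbs := by
      rw [← Int.natAbs_mul]
      exact Int.natCast_dvd.1 ⟨w', by rw [h1]; ring⟩
    obtain ⟨α, β, hα, hβ, hαβ⟩ := exists_dvd_and_dvd_of_dvd_mul h3
    obtain ⟨q, hq⟩ := Int.natCast_dvd.2 hα
    obtain ⟨k, hk⟩ := Int.natCast_dvd.2 hβ
    have hα0 : 0 < α := Nat.pos_of_ne_zero (by rintro rfl; simp at hαβ; omega)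
    have hβ0 : 0 < β := Nat.pos_of_ne_zero (by rintro rfl; simp at hαβ; omega)
    have hα0' : (0 : ℤ) < α := by exact_mod_cast hα0
    have hβ0' : (0 : ℤ) < β := by exact_mod_cast hβ0
    have hW0 : 0 < W := by rcases hη with h | h <;> rw [h] at hW <;> linarith
    have hW0' : 0 < W + η := by rcases hη with h | h <;> rw [h] at hW ⊢ <;> linarith
    have hq0 : 0 < q := by rw [hq] at hW0; exact (mul_pos_iff_of_pos_left hα0').1 hW0
    have hk0 : 0 < k := by rw [hk] at hW0'; exact (mul_pos_iff_of_pos_left hβ0').1 hW0'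
    refine ⟨α, β, q, k, hαβ.symm, hq, hk, ?_, hα0, hβ0, hq0, hk0⟩
    have he' : (e : ℤ) = α * β := by rw [hαβ]; push_cast; ring
    have h4 : (e : ℤ) * (q * k) = e * w' := by
      have : (e : ℤ) * (q * k) = W * (W + η) := by
        calc (e : ℤ) * (q * k) = (α * q) * (β * k) := by rw [he']; ring
          _ = W * (W + η) := by rw [← hq, ← hk]
      rw [this, h1]; ring
    exact mul_left_cancel₀ he0'.ne' h4
  obtain ⟨α, β, q, k, h1, h2, h3, h4, hα, hβ, hq, hk⟩ := key u u' U ε hε hu' hu1 hu hU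
  obtain ⟨α', β', q', k', h1', h2', h3', h4', hα', hβ', hq', hk'⟩ :=
    key v v' V ε' hε' hv' hv1 hv hV
  have hαi : (0 : ℤ) < α := by exact_mod_cast hα
  have hαi' : (0 : ℤ) < α' := by exact_mod_cast hα'
  have hcop : Nat.Coprime α α' := by
    apply Nat.Coprime.symm
    rw [Nat.coprime_iff_gcd_eq_one]
    by_contra hne
    obtain ⟨p, hp, hpd⟩ := Nat.exists_prime_and_dvd hne
    have hpa' : p ∣ α' := hpd.trans (Nat.gcd_dvd_left _ _)
    have hpa : p ∣ α := hpd.trans (Nat.gcd_dvd_right _ _)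
    refine hg p hp (hpa.trans ⟨β, h1.symm⟩) ?_ ?_
    · exact (Int.natCast_dvd_natCast.2 hpa).trans ⟨q, h2⟩
    · exact (Int.natCast_dvd_natCast.2 hpa').trans ⟨q', h2'⟩
  have k1 : α ∣ β' := hcop.dvd_of_dvd_mul_left (by rw [h1', ← h1]; exact dvd_mul_right _ _)
  have k2 : α' ∣ β := hcop.symm.dvd_of_dvd_mul_left (by rw [h1, ← h1']; exact dvd_mul_right _ _)
  have k3 : α * α' ∣ e := hcop.mul_dvd_of_dvd_of_dvd ⟨β, h1.symm⟩ ⟨β', h1'.symm⟩
  have m1 : ((α * α' : ℕ) : ℤ) ∣ U * V := by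
    push_cast
    exact mul_dvd_mul ⟨q, h2⟩ ⟨q', h2'⟩
  have m2 : ((α * α' : ℕ) : ℤ) ∣ (U + ε) * (V + ε') := by
    push_cast
    rw [mul_comm]
    exact mul_dvd_mul ((Int.natCast_dvd_natCast.2 k2).trans ⟨k, h3⟩)
      ((Int.natCast_dvd_natCast.2 k1).trans ⟨k', h3'⟩)
  have m5 : ((α * α' : ℕ) : ℤ) ∣ 2 * ρ * e := (Int.natCast_dvd_natCast.2 k3).mul_left _
  obtain ⟨w, hw⟩ : ((α * α' : ℕ) : ℤ) ∣ 2 * ρ * e - U * V - (U + ε) * (V + ε') :=
    dvd_sub (dvd_sub m5 m1) m2
  push_cast at hw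
  have hεε : ε * ε' = 1 ∨ ε * ε' = -1 := by
    rcases hε with h | h <;> rcases hε' with h' | h' <;> rw [h, h'] <;> norm_num
  have hXw : ρ * d - u * v - ε * ε' = 2 * (α * α' * w) := by
    rw [← hw, hde, hU, hV]; ring
  have hX0 : 0 < ρ * d - u * v - ε * ε' := by
    rcases hεε with h | h <;> rw [h] <;> linarith
  have hw0 : 0 < w := by
    rw [hXw] at hX0
    have : 0 < (α : ℤ) * α' * w := by linarith
    exact (mul_pos_iff_of_pos_left (mul_pos hαi hαi')).1 this
  have huv4 : (u - ε) * (v - ε') = 4 * (α * α' * (q * q')) := by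
    rw [hU, hV]
    have : (2 * U + ε - ε) * (2 * V + ε' - ε') = 4 * (U * V) := by ring
    rw [this, h2, h2']; ring
  have hw1 : u - 1 ≤ u - ε := by rcases hε with h | h <;> linarith
  have hw2 : v - 1 ≤ v - ε' := by rcases hε' with h | h <;> linarith
  have hu0 : 0 ≤ u - 1 := by linarith
  have hv0 : 0 ≤ v - 1 := by linarith
  have hprod : (u - 1) * (v - 1) ≤ (u - ε) * (v - ε') :=
    mul_le_mul hw1 hw2 hv0 (by linarith)
  by_cases hcase : 2 * (q * q') ≤ u' * v' * w
  · have s1 : w * ((u - ε) * (v - ε')) ≤ w * (u' * v' * (ρ * d - u * v + 1)) := by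
      have s2 : w * ((u - ε) * (v - ε')) = 2 * (q * q') * (ρ * d - u * v - ε * ε') := by
        rw [huv4, hXw]; ring
      have s3 : 2 * (q * q') * (ρ * d - u * v - ε * ε') ≤
          u' * v' * w * (ρ * d - u * v - ε * ε') := mul_le_mul_of_nonneg_right hcase hX0.le
      have s4 : u' * v' * w * (ρ * d - u * v - ε * ε') ≤ u' * v' * w * (ρ * d - u * v + 1) := by
        apply mul_le_mul_of_nonneg_left _ (by positivity)
        rcases hεε with h | h <;> rw [h] <;> linarith
      have s5 : u' * v' * w * (ρ * d - u * v + 1) = w * (u' * v' * (ρ * d - u * v + 1)) := by ring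
      linarith
    have s2 := le_of_mul_le_mul_left s1 hw0
    linarith
  · push Not at hcase
    have t1 : (q * q') * (k * k' * w) < (q * q') * 2 := by
      have : u' * v' * w = (q * q') * (k * k' * w) := by rw [← h4, ← h4']; ring
      linarith
    have t2 : k * k' * w < 2 := lt_of_mul_lt_mul_left t1 (by positivity)
    have t3 : k = 1 := by
      by_contra hne
      have : 2 ≤ k := by omega
      have : 2 * 1 * 1 ≤ k * k' * w :=
        mul_le_mul (mul_le_mul this (by linarith) (by norm_num) hk.le) (by linarith)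
          (by norm_num) (by positivity)
      linarith
    have t4 : k' = 1 := by
      by_contra hne
      have : 2 ≤ k' := by omega
      have : 1 * 2 * 1 ≤ k * k' * w :=
        mul_le_mul (mul_le_mul (by linarith) this (by norm_num) hk.le) (by linarith)
          (by norm_num) (by positivity)
      linarith
    subst t3 t4
    rw [mul_one] at h3 h3' h4 h4'
    subst h4 h4'
    obtain ⟨K, hK⟩ := k1
    have hK' : β = α' * K := by
      have : α * β = α * (α' * K) := by
        rw [h1, ← h1', hK]; ring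
      exact Nat.eq_of_mul_eq_mul_left hα this
    have big : ∀ w w' W η : ℤ, ∀ A : ℕ, (η = 1 ∨ η = -1) → 0 < w' → w' ≤ c → 4 * c < w →
        w ^ 2 = w' * d + 1 → w = 2 * W + η → W = A * w' → 2 * c ≤ (A : ℤ) := by
      intro w w' W η A hη hw' hwc hw1 hw hW hA
      by_contra hn
      push Not at hn
      have b1 : w ≤ 4 * c * w' := by
        have b2 : (A : ℤ) * w' ≤ (2 * c - 1) * w' :=
          mul_le_mul_of_nonneg_right (by linarith) hw'.le
        have b3 : (2 * c - 1) * w' = 2 * c * w' - w' := by ring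
        have b4 : 4 * c * w' = 2 * (2 * c * w') := by ring
        rcases hη with h | h <;> rw [h] at hW <;> linarith
      have b2 : w ^ 2 ≤ (4 * c * w') ^ 2 := pow_le_pow_left₀ (by linarith) b1 2
      have b3 : (4 * c * w') ^ 2 ≤ w' * (16 * c ^ 3) := by
        have : (4 * c * w') ^ 2 = (16 * c ^ 2 * w') * w' := by ring
        rw [this]
        have b4 : (16 * c ^ 2 * w') * w' ≤ (16 * c ^ 2 * w') * c :=
          mul_le_mul_of_nonneg_left hwc (by positivity)
        linarith [show (16 * c ^ 2 * w') * c = w' * (16 * c ^ 3) by ring]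
      have b4 : w' * (16 * c ^ 3) < w' * d := mul_lt_mul_of_pos_left hd hw'
      linarith
    refine system (c := c) (P := α) (Q := α') (K := K) hu' huv hvc hε hε'
      (big u _ U ε α hε hu' (by linarith) hu1 hu hU h2)
      (big v _ V ε' α' hε' hv' hvc hv1 hv hV h2') ?_ ?_
    · rw [← h2, h3, hK']; push_cast; ring
    · rw [← h2', h3', hK]; push_cast; ring

/-- the sign that belongs to a Boolean value -/
def sg (i : Bool) : ℤ := if i then 1 else -1

theorem sg_or (i : Bool) : sg i = 1 ∨ sg i = -1 := by cases i <;> simp [sg]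

theorem sg_xor (i j k : Bool) : sg (xor (xor i j) k) = sg i * sg j * sg k := by
  cases i <;> cases j <;> cases k <;> simp [sg]

theorem bool_fun : ∀ c : Bool → Bool → Bool, (∀ i k, ∃ j, c i j = k) → (∀ j k, ∃ i, c i j = k) →
    ∃ k, ∀ i j, c i j = xor (xor i j) k := by
  decide

/-- a number with at most four prime factors: if the cells of three pairs of splittings are
nontrivial then the third splitting is the product of the first two -/
theorem comb {e : ℕ} (he : e ≠ 0) (hcard : e.primeFactors.card ≤ 4) (A B C : Bool → ℤ)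
    (dA : ∀ p : ℕ, p.Prime → p ∣ e → (p : ℤ) ∣ A true → ¬ (p : ℤ) ∣ A false)
    (dB : ∀ p : ℕ, p.Prime → p ∣ e → (p : ℤ) ∣ B true → ¬ (p : ℤ) ∣ B false)
    (dC : ∀ p : ℕ, p.Prime → p ∣ e → (p : ℤ) ∣ C true → ¬ (p : ℤ) ∣ C false)
    (eC : (e : ℤ) ∣ C true * C false)
    (hAB : ∀ i j, ∃ p : ℕ, p.Prime ∧ p ∣ e ∧ (p : ℤ) ∣ A i ∧ (p : ℤ) ∣ B j)
    (hAC : ∀ i j, ∃ p : ℕ, p.Prime ∧ p ∣ e ∧ (p : ℤ) ∣ A i ∧ (p : ℤ) ∣ C j)
    (hBC : ∀ i j, ∃ p : ℕ, p.Prime ∧ p ∣ e ∧ (p : ℤ) ∣ B i ∧ (p : ℤ) ∣ C j) :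
    ∃ k : Bool, ∀ p : ℕ, p.Prime → p ∣ e → ∃ i j, (p : ℤ) ∣ A i ∧ (p : ℤ) ∣ B j ∧
      (p : ℤ) ∣ C (xor (xor i j) k) := by
  have un : ∀ D : Bool → ℤ,
      (∀ p : ℕ, p.Prime → p ∣ e → (p : ℤ) ∣ D true → ¬ (p : ℤ) ∣ D false) →
      ∀ p : ℕ, p.Prime → p ∣ e → ∀ i i', (p : ℤ) ∣ D i → (p : ℤ) ∣ D i' → i = i' := by
    intro D hD p hp hpe i i' h1 h2
    cases i <;> cases i'
    · rfl
    · exact absurd h1 (hD p hp hpe h2)
    · exact absurd h2 (hD p hp hpe h1)
    · rfl
  choose P hP1 hP2 hP3 hP4 using hAB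
  have hinj : Function.Injective (fun q : Bool × Bool => P q.1 q.2) := by
    rintro ⟨i, j⟩ ⟨i', j'⟩ h
    simp only at h
    have h1 : i = i' := un A dA (P i j) (hP1 i j) (hP2 i j) i i' (hP3 i j) (by
      rw [h]; exact hP3 i' j')
    have h2 : j = j' := un B dB (P i j) (hP1 i j) (hP2 i j) j j' (hP4 i j) (by
      rw [h]; exact hP4 i' j')
    rw [h1, h2]
  have himg : Finset.univ.image (fun q : Bool × Bool => P q.1 q.2) = e.primeFactors := by
    apply Finset.eq_of_subset_of_card_le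
    · intro p hp
      obtain ⟨q, _, rfl⟩ := Finset.mem_image.1 hp
      exact Nat.mem_primeFactors.2 ⟨hP1 _ _, hP2 _ _, he⟩
    · rw [Finset.card_image_of_injective _ hinj]
      simpa using hcard
  have hsurj : ∀ p : ℕ, p.Prime → p ∣ e → ∃ i j, p = P i j := by
    intro p hp hpe
    have : p ∈ Finset.univ.image (fun q : Bool × Bool => P q.1 q.2) := by
      rw [himg]; exact Nat.mem_primeFactors.2 ⟨hp, hpe, he⟩
    obtain ⟨q, _, hq⟩ := Finset.mem_image.1 this
    exact ⟨q.1, q.2, hq.symm⟩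
  have hex : ∀ i j, ∃ k, (P i j : ℤ) ∣ C k := by
    intro i j
    have h1 : (P i j : ℤ) ∣ C true * C false := (Int.natCast_dvd_natCast.2 (hP2 i j)).trans eC
    rcases Int.Prime.dvd_mul' (hP1 i j) h1 with h | h
    · exact ⟨true, h⟩
    · exact ⟨false, h⟩
  choose c hc using hex
  have h1 : ∀ i k, ∃ j, c i j = k := by
    intro i k
    obtain ⟨p, hp, hpe, hpA, hpC⟩ := hAC i k
    obtain ⟨i', j', rfl⟩ := hsurj p hp hpe
    have h2 : i = i' := un A dA _ hp hpe i i' hpA (hP3 i' j')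
    subst h2
    exact ⟨j', un C dC _ hp hpe _ _ (hc i j') hpC⟩
  have h2 : ∀ j k, ∃ i, c i j = k := by
    intro j k
    obtain ⟨p, hp, hpe, hpB, hpC⟩ := hBC j k
    obtain ⟨i', j', rfl⟩ := hsurj p hp hpe
    have h2 : j = j' := un B dB _ hp hpe j j' hpB (hP4 i' j')
    subst h2
    exact ⟨i', un C dC _ hp hpe _ _ (hc i' j) hpC⟩
  obtain ⟨k, hk⟩ := bool_fun c h1 h2
  refine ⟨k, fun p hp hpe => ?_⟩
  obtain ⟨i, j, rfl⟩ := hsurj p hp hpe
  exact ⟨i, j, hP3 i j, hP4 i j, by rw [← hk]; exact hc i j⟩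

theorem glue {e : ℕ} (he : e ≠ 0) (hcard : e.primeFactors.card ≤ 4) {τ x y z : ℤ} (hτ : τ ≠ 0)
    (A B C : Bool → ℤ) (xA : ∀ i, τ * A i = x - sg i) (yB : ∀ i, τ * B i = y - sg i)
    (zC : ∀ i, τ * C i = z - sg i) (hpar : ∀ k, τ ∣ z - sg k * (x * y))
    (eA : (e : ℤ) ∣ A true * A false) (eB : (e : ℤ) ∣ B true * B false)
    (eC : (e : ℤ) ∣ C true * C false)
    (dA : ∀ p : ℕ, p.Prime → p ∣ e → (p : ℤ) ∣ A true → ¬ (p : ℤ) ∣ A false)
    (dB : ∀ p : ℕ, p.Prime → p ∣ e → (p : ℤ) ∣ B true → ¬ (p : ℤ) ∣ B false)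
    (dC : ∀ p : ℕ, p.Prime → p ∣ e → (p : ℤ) ∣ C true → ¬ (p : ℤ) ∣ C false)
    (hAB : ∀ i j, ∃ p : ℕ, p.Prime ∧ p ∣ e ∧ (p : ℤ) ∣ A i ∧ (p : ℤ) ∣ B j)
    (hAC : ∀ i j, ∃ p : ℕ, p.Prime ∧ p ∣ e ∧ (p : ℤ) ∣ A i ∧ (p : ℤ) ∣ C j)
    (hBC : ∀ i j, ∃ p : ℕ, p.Prime ∧ p ∣ e ∧ (p : ℤ) ∣ B i ∧ (p : ℤ) ∣ C j) :
    ∃ k, τ * e ∣ z - sg k * (x * y) := by
  obtain ⟨k, hk⟩ := comb he hcard A B C dA dB dC eC hAB hAC hBC
  refine ⟨k, ?_⟩
  obtain ⟨Y, hY⟩ := hpar k
  rw [hY]
  apply mul_dvd_mul_left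
  rw [Int.natCast_dvd, Nat.dvd_iff_prime_pow_dvd_dvd]
  intro p n hp hn
  rcases Nat.eq_zero_or_pos n with hn0 | hn0
  · subst hn0; simp
  have hpe : p ∣ e := (dvd_pow_self p (by omega)).trans hn
  have side : ∀ D : Bool → ℤ, (e : ℤ) ∣ D true * D false →
      (∀ p : ℕ, p.Prime → p ∣ e → (p : ℤ) ∣ D true → ¬ (p : ℤ) ∣ D false) →
      ∀ i, (p : ℤ) ∣ D i → ((p ^ n : ℕ) : ℤ) ∣ D i := by
    intro D hD1 hD2 i hi
    have hpi : Prime ((p : ℕ) : ℤ) := Nat.prime_iff_prime_int.1 hp
    have h1 : ((p ^ n : ℕ) : ℤ) ∣ D true * D false := (Int.natCast_dvd_natCast.2 hn).trans hD1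
    cases i with
    | true =>
      have h5 : IsCoprime ((p ^ n : ℕ) : ℤ) (D false) := by
        push_cast
        exact ((Prime.coprime_iff_not_dvd hpi).2 (hD2 p hp hpe hi)).pow_left
      exact h5.dvd_of_dvd_mul_right h1
    | false =>
      have h5 : IsCoprime ((p ^ n : ℕ) : ℤ) (D true) := by
        push_cast
        exact ((Prime.coprime_iff_not_dvd hpi).2 (fun h => hD2 p hp hpe h hi)).pow_left
      exact h5.dvd_of_dvd_mul_left h1
  obtain ⟨i, j, h1, h2, h3⟩ := hk p hp hpe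
  have g1 := side A eA dA i h1
  have g2 := side B eB dB j h2
  have g3 := side C eC dC _ h3
  have hYe : Y = C (xor (xor i j) k) - (sg k * (τ * B j) + sg k * sg j) * A i
      - (sg k * sg i) * B j := by
    apply mul_left_cancel₀ hτ
    rw [← hY]
    have e1 : x = τ * A i + sg i := by rw [xA]; ring
    have e2 : y = τ * B j + sg j := by rw [yB]; ring
    have e3 : z = τ * C (xor (xor i j) k) + sg i * sg j * sg k := by
      rw [zC, sg_xor]; ring
    rw [e1, e2, e3]
    ring
  rw [← Int.natCast_dvd, hYe]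
  exact dvd_sub (dvd_sub g3 (g1.mul_left _)) (g2.mul_left _)

theorem x_small {a b d X : ℤ} (ha : 0 < a) (hab : a < b) (hd : 0 < d)
    (h : 4 * (a * b) * X ^ 2 < d ^ 2) : 14 * X < 5 * d := by
  have b2 : (14 * X) ^ 2 < (5 * d) ^ 2 := by
    have b3 : 1 * 2 ≤ a * b := mul_le_mul (by linarith) (by linarith) (by norm_num) ha.le
    have b4 : 8 * X ^ 2 ≤ 4 * (a * b) * X ^ 2 :=
      mul_le_mul_of_nonneg_right (by linarith) (by positivity)
    have b5 : 0 < d ^ 2 := by positivity
    have b6 : (14 * X) ^ 2 = 196 * X ^ 2 := by ring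
    have b7 : (5 * d) ^ 2 = 25 * d ^ 2 := by ring
    have b8 : 0 ≤ X ^ 2 := sq_nonneg X
    linarith
  exact lt_of_pow_lt_pow_left₀ 2 (by positivity) b2

theorem z_small {c d z : ℤ} (hc : 3 ≤ c) (hgap : 16 * c ^ 3 < d) (hz : z ^ 2 = c * d + 1) :
    8 * z < d := by
  have hc0 : 0 < c := by linarith
  have hd0 : 0 < d := by
    have : 0 < c ^ 3 := by positivity
    linarith
  have b3 : (8 * z) ^ 2 < d ^ 2 := by
    have b4 : (8 * z) ^ 2 = 64 * (c * d) + 64 := by rw [mul_pow, hz]; ring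
    have b5 : 16 * c ^ 3 * d < d * d := mul_lt_mul_of_pos_right hgap hd0
    have b6 : 3 * 3 * (c * d) ≤ c * c * (c * d) :=
      mul_le_mul_of_nonneg_right (mul_le_mul hc hc (by norm_num) hc0.le) (by positivity)
    have b7 : 3 * 1 ≤ c * d := mul_le_mul hc (by linarith) (by norm_num) hc0.le
    have b8 : 16 * c ^ 3 * d = 16 * (c * c * (c * d)) := by ring
    have b9 : d ^ 2 = d * d := by ring
    linarith
  exact lt_of_pow_lt_pow_left₀ 2 hd0.le b3

/-- splittings of `d / 4` or of the odd part of `d` with at most four prime factors -/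
theorem few_primes {a b c d r s t x y z : ℤ} (ha : 0 < a) (hab : a < b) (hbc : b < c)
    (hcd : c < d) (hr : r ^ 2 = a * b + 1) (hs : s ^ 2 = a * c + 1) (ht : t ^ 2 = b * c + 1)
    (hx : x ^ 2 = a * d + 1) (hy : y ^ 2 = b * d + 1) (hz : z ^ 2 = c * d + 1)
    (hr0 : 0 < r) (hs0 : 0 < s) (ht0 : 0 < t) (hx0 : 0 < x) (hy0 : 0 < y) (hz0 : 0 < z)
    (h : a ≠ b + c + d + 2 * b * c * d - 2 * t * y * z)
    (h' : c ≠ a + b + d + 2 * a * b * d - 2 * r * x * y) {e : ℕ}
    (hde : (¬ 2 ∣ e ∧ (d = e ∨ d = 2 * e)) ∨ d = 4 * e) (hcard : e.primeFactors.card ≤ 4) :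
    False := by
  have hc : 0 < c := by linarith
  have hd : 0 < d := by linarith
  have he0 : 0 < e := by
    rcases Nat.eq_zero_or_pos e with h0 | h0
    · rw [h0] at hde
      rcases hde with ⟨_, h1 | h1⟩ | h1 <;> simp at h1 <;> omega
    · exact h0
  have hgap := gap ha hab hbc hcd hs ht hx hy hz hs0 ht0 hx0 hy0 hz0 h
  obtain ⟨p1, p2, p3, p4, p5⟩ := size ha hab hbc.le (by linarith) hgap hr hx hy hr0 hx0 hy0
  obtain ⟨q1, q2, q3, q4, q5⟩ := size ha (hab.trans hbc) le_rfl (by linarith) hgap hs hx hz hs0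
    hx0 hz0
  obtain ⟨w1, w2, w3, w4, w5⟩ := size (ha.trans hab) hbc le_rfl (by linarith) hgap ht hy hz ht0
    hy0 hz0
  -- the final contradiction
  have fin : ∀ τ : ℤ, d ≤ 2 * (τ * e) → τ * e ∣ d → ∀ k, τ * e ∣ z - sg k * (x * y) → False := by
    intro τ h1 h2 k h3
    have h4 : τ * e ∣ z + sg k * (r * d - x * y) := by
      have := dvd_add h3 (h2.mul_left (sg k * r))
      have e1 : z - sg k * (x * y) + sg k * r * d = z + sg k * (r * d - x * y) := by ring
      rwa [e1] at this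
    have b1 : 14 * (r * d - x * y) < 5 * d := x_small ha hab hd p2
    have b2 : 8 * z < d := z_small (by linarith) hgap hz
    have h5 : z + sg k * (r * d - x * y) = 0 := by
      apply Int.eq_zero_of_abs_lt_dvd h4
      rcases sg_or k with hk | hk <;> rw [hk, abs_lt] <;> constructor <;> linarith
    rcases sg_or k with hk | hk
    · rw [hk] at h5; linarith
    · rw [hk] at h5
      have h6 : z = r * d - x * y := by linarith
      have h7 : z ^ 2 = (a + b + d + 2 * a * b * d - 2 * r * x * y) * d + 1 := by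
        rw [h6]
        have : (r * d - x * y) ^ 2 = r ^ 2 * d ^ 2 + x ^ 2 * y ^ 2 - 2 * r * d * x * y := by ring
        rw [this, hr, hx, hy]; ring
      rw [hz] at h7
      exact h' (mul_right_cancel₀ hd.ne' (by linarith))
  rcases hde with ⟨ho, hde⟩ | hde
  · -- `d = e` or `d = 2 e`, `e` odd
    have sq : ∀ w w' : ℤ, w ^ 2 = w' * d + 1 → (e : ℤ) ∣ (w - sg true) * (w - sg false) := by
      intro w w' hw
      have : (w - sg true) * (w - sg false) = w' * d := by
        have : (w - sg true) * (w - sg false) = w ^ 2 - 1 := by simp [sg]; ring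
        rw [this, hw]; ring
      rw [this]
      rcases hde with h | h <;> rw [h]
      · exact dvd_mul_left _ _
      · exact (dvd_mul_left _ _).trans (dvd_mul_left _ _)
    have dis : ∀ w : ℤ, ∀ p : ℕ, p.Prime → p ∣ e → (p : ℤ) ∣ w - sg true →
        ¬ (p : ℤ) ∣ w - sg false := by
      intro w p hp hpe h1 h2
      have h3 := dvd_sub h2 h1
      have h4 : w - sg false - (w - sg true) = 2 := by simp only [sg]; norm_num
      rw [h4] at h3
      have h5 : p ∣ 2 := by exact_mod_cast h3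
      have h6 := (Nat.prime_dvd_prime_iff_eq hp Nat.prime_two).1 h5
      rw [h6] at hpe
      exact ho hpe
    obtain ⟨k, hk⟩ := glue (τ := 1) (x := x) (y := y) (z := z) he0.ne' hcard one_ne_zero
      (fun i => x - sg i) (fun i => y - sg i) (fun i => z - sg i) (fun i => by ring)
      (fun i => by ring) (fun i => by ring) (fun k => one_dvd _) (sq x a hx) (sq y b hy)
      (sq z c hz) (dis x) (dis y) (dis z)
      (fun i j => cell_odd he0 ho hde (sg_or i) (sg_or j) ha (by linarith) hx hy (by linarith)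
        (by linarith) p1 p5)
      (fun i j => cell_odd he0 ho hde (sg_or i) (sg_or j) ha (by linarith) hx hz (by linarith)
        (by linarith) q1 q5)
      (fun i j => cell_odd he0 ho hde (sg_or i) (sg_or j) (by linarith) (by linarith) hy hz
        (by linarith) (by linarith) w1 w5)
    refine fin 1 ?_ ?_ k hk
    · rcases hde with h | h <;> rw [h] <;> linarith [show (0 : ℤ) < e by exact_mod_cast he0]
    · rw [one_mul]
      rcases hde with h | h <;> rw [h]
      exact dvd_mul_left _ _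
  · -- `d = 4 e`
    have odd : ∀ w w' : ℤ, w ^ 2 = w' * d + 1 → ∃ W : ℤ, w = 2 * W + 1 := by
      intro w w' hw
      rcases Int.emod_two_eq_zero_or_one w with h0 | h1
      · exfalso
        have h9 : (2 : ℤ) ∣ w ^ 2 := dvd_pow (Int.dvd_of_emod_eq_zero h0) two_ne_zero
        have h7 : (2 : ℤ) ∣ w ^ 2 - 1 := ⟨w' * (2 * e), by rw [hw, hde]; ring⟩
        have := (Int.dvd_iff_dvd_of_dvd_sub h7).1 h9
        omega
      · exact ⟨w / 2, by omega⟩
    obtain ⟨X0, hX0⟩ := odd x a hx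
    obtain ⟨Y0, hY0⟩ := odd y b hy
    obtain ⟨Z0, hZ0⟩ := odd z c hz
    have side : ∀ w W : ℤ, w = 2 * W + 1 → ∀ i, w = 2 * (if i then W else W + 1) + sg i := by
      intro w W hW i
      cases i <;> simp [sg] <;> linarith
    have sq : ∀ w w' W : ℤ, w ^ 2 = w' * d + 1 → w = 2 * W + 1 →
        (e : ℤ) ∣ (if true then W else W + 1) * (if false then W else W + 1) := by
      intro w w' W hw hW
      simp only [if_true, Bool.false_eq_true, if_false]
      refine ⟨w', ?_⟩
      have : 4 * (W * (W + 1)) = 4 * (e * w') := by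
        have h1 : 4 * (W * (W + 1)) = (2 * W + 1) ^ 2 - 1 := by ring
        rw [h1, ← hW, hw, hde]; ring
      linarith
    have dis : ∀ W : ℤ, ∀ p : ℕ, p.Prime → p ∣ e → (p : ℤ) ∣ (if true then W else W + 1) →
        ¬ (p : ℤ) ∣ (if false then W else W + 1) := by
      intro W p hp hpe h1 h2
      simp only [if_true, Bool.false_eq_true, if_false] at h1 h2
      have h3 := dvd_sub h2 h1
      have h4 : W + 1 - W = 1 := by ring
      rw [h4] at h3
      have h5 : p ∣ 1 := by exact_mod_cast h3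
      exact hp.one_lt.ne' (Nat.dvd_one.1 h5)
    obtain ⟨k, hk⟩ := glue (τ := 2) (x := x) (y := y) (z := z) he0.ne' hcard two_ne_zero
      (fun i => if i then X0 else X0 + 1) (fun i => if i then Y0 else Y0 + 1)
      (fun i => if i then Z0 else Z0 + 1) (fun i => by linarith [side x X0 hX0 i])
      (fun i => by linarith [side y Y0 hY0 i]) (fun i => by linarith [side z Z0 hZ0 i])
      (fun k => by
        rcases sg_or k with hk | hk <;> rw [hk, hX0, hY0, hZ0]
        · exact ⟨Z0 - 2 * X0 * Y0 - X0 - Y0, by ring⟩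
        · exact ⟨Z0 + 2 * X0 * Y0 + X0 + Y0 + 1, by ring⟩)
      (sq x a X0 hx hX0) (sq y b Y0 hy hY0) (sq z c Z0 hz hZ0) (dis X0) (dis Y0) (dis Z0)
      (fun i j => cell_even he0 hde (sg_or i) (sg_or j) ha hab hbc.le hgap hx hy p3 p4 p1
        (side x X0 hX0 i) (side y Y0 hY0 j) p5)
      (fun i j => cell_even he0 hde (sg_or i) (sg_or j) ha (hab.trans hbc) le_rfl hgap hx hz q3 q4
        q1 (side x X0 hX0 i) (side z Z0 hZ0 j) q5)
      (fun i j => cell_even he0 hde (sg_or i) (sg_or j) (ha.trans hab) hbc le_rfl hgap hy hz w3 w4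
        w1 (side y Y0 hY0 i) (side z Z0 hZ0 j) w5)
    refine fin 2 ?_ ?_ k hk
    · rw [hde]; linarith
    · exact ⟨2, by rw [hde]; ring⟩

/-- the reduction to `d / 4` or the odd part of `d` -/
theorem reduce {d m n : ℕ} (hd0 : 0 < d) (hd : d = m * n) (hm : m ∣ 4)
    (hn : n.primeFactors.card ≤ 4) :
    ∃ e : ℕ, ((¬ 2 ∣ e ∧ ((d : ℤ) = e ∨ (d : ℤ) = 2 * e)) ∨ (d : ℤ) = 4 * e) ∧
      e.primeFactors.card ≤ 4 := by
  have hn0 : n ≠ 0 := by rintro rfl; simp at hd; omega
  have mono : ∀ e : ℕ, e ∣ n → e.primeFactors.card ≤ 4 := fun e he =>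
    (Finset.card_le_card (Nat.primeFactors_mono he hn0)).trans hn
  have hm4 : m ≤ 4 := Nat.le_of_dvd (by norm_num) hm
  have hm' : m = 1 ∨ m = 2 ∨ m = 4 := by
    interval_cases m <;> simp_all
  by_cases h4 : 4 ∣ d
  · obtain ⟨e, he⟩ := h4
    refine ⟨e, Or.inr (by exact_mod_cast he), mono e ?_⟩
    rcases hm' with h | h | h
    · exact ⟨4, by rw [h] at hd; omega⟩
    · exact ⟨2, by rw [h] at hd; omega⟩
    · exact ⟨1, by rw [h] at hd; omega⟩
  · by_cases h2 : 2 ∣ d
    · obtain ⟨e, he⟩ := h2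
      refine ⟨e, Or.inl ⟨by omega, Or.inr (by exact_mod_cast he)⟩, mono e ?_⟩
      rcases hm' with h | h | h
      · exact ⟨2, by rw [h] at hd; omega⟩
      · exact ⟨1, by rw [h] at hd; omega⟩
      · exfalso; exact h4 ⟨n, by rw [← h]; exact hd⟩
    · refine ⟨d, Or.inl ⟨h2, Or.inl rfl⟩, mono d ?_⟩
      rcases hm' with h | h | h
      · exact ⟨1, by rw [h] at hd; omega⟩
      · exfalso; exact h2 ⟨n, by rw [← h]; exact hd⟩
      · exfalso; exact h2 ⟨2 * n, by rw [h] at hd; omega⟩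

/-- it suffices to contradict irregularity -/
theorem regular_of_not_false {a b c d : ℕ} (hab : a < b) (hbc : b < c) (hcd : c < d)
    (hD : IsIntegralDiophantineTuple {a, b, c, d})
    (H : ∀ r s t x y z : ℤ, (0 : ℤ) < a → (a : ℤ) < b → (b : ℤ) < c → (c : ℤ) < d →
      r ^ 2 = a * b + 1 → s ^ 2 = a * c + 1 → t ^ 2 = b * c + 1 → x ^ 2 = a * d + 1 →
      y ^ 2 = b * d + 1 → z ^ 2 = c * d + 1 → 0 < r → 0 < s → 0 < t → 0 < x → 0 < y → 0 < z →
      (a : ℤ) ≠ b + c + d + 2 * b * c * d - 2 * t * y * z →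
      (c : ℤ) ≠ a + b + d + 2 * a * b * d - 2 * r * x * y → False) :
    d = regularExtension a b c := by
  obtain ⟨h0, hsq⟩ := hD
  have ha : 0 < a := Nat.pos_of_ne_zero (h0 a (by simp))
  obtain ⟨r, hr0, hr⟩ := exists_root (hsq a (by simp) b (by simp) (by omega))
  obtain ⟨s, hs0, hs⟩ := exists_root (hsq a (by simp) c (by simp) (by omega))
  obtain ⟨t, ht0, ht⟩ := exists_root (hsq b (by simp) c (by simp) (by omega))
  obtain ⟨x, hx0, hx⟩ := exists_root (hsq a (by simp) d (by simp) (by omega))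
  obtain ⟨y, hy0, hy⟩ := exists_root (hsq b (by simp) d (by simp) (by omega))
  obtain ⟨z, hz0, hz⟩ := exists_root (hsq c (by simp) d (by simp) (by omega))
  have ha' : (0 : ℤ) < a := by exact_mod_cast ha
  have hab' : (a : ℤ) < b := by exact_mod_cast hab
  have hbc' : (b : ℤ) < c := by exact_mod_cast hbc
  have hcd' : (c : ℤ) < d := by exact_mod_cast hcd
  have hreg : (d : ℤ) = a + b + c + 2 * a * b * c + 2 * (r * s * t) := by
    by_contra hne
    exact H r s t x y z ha' hab' hbc' hcd' hr hs ht hx hy hz hr0 hs0 ht0 hx0 hy0 hz0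
      (fun h => hne (regular_of_eq ha' hab' hbc' hcd' hr hs ht hy hz hr0 hs0 ht0 h))
      (fun h => hne (regular_of_eq' ha' hab' hbc' hcd' hr hs ht hx hy hr0 hs0 ht0 h))
  have hsqrt : (Nat.sqrt ((a * b + 1) * (a * c + 1) * (b * c + 1)) : ℤ) = r * s * t := by
    have h1 : (((a * b + 1) * (a * c + 1) * (b * c + 1) : ℕ) : ℤ) = (r * s * t) ^ 2 := by
      push_cast
      rw [← hr, ← hs, ← ht]
      ring
    have hpos : 0 ≤ r * s * t := by positivity
    obtain ⟨w, hw⟩ := Int.eq_ofNat_of_zero_le hpos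
    rw [hw] at h1 ⊢
    have h2 : (a * b + 1) * (a * c + 1) * (b * c + 1) = w * w := by
      have : (((a * b + 1) * (a * c + 1) * (b * c + 1) : ℕ) : ℤ) = ((w * w : ℕ) : ℤ) := by
        rw [h1]; push_cast; ring
      exact_mod_cast this
    rw [h2, Nat.sqrt_eq]
  unfold regularExtension
  have : (d : ℤ) = ((a + b + c + 2 * a * b * c +
      2 * Nat.sqrt ((a * b + 1) * (a * c + 1) * (b * c + 1)) : ℕ) : ℤ) := by
    push_cast
    rw [hsqrt]
    exact hreg
  exact_mod_cast this

end Pool.Agent.Lib.MP_3c30ec_nt
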